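import Pool.Agent.N587.DL.Defs

/-!
# Deterministic properties of the parts of the learner
-/

set_option autoImplicit false

namespace Pool.Agent.N587.DL

theorem subStep_length (W : ℕ) (acc : List Term) (l : Lit) (h : acc.length ≤ W) :
    (subStep W acc l).length ≤ W := by
  unfold subStep
  split_ifs with h1
  · exact h1
  · simp

theorem subs_length (W : ℕ) (C : Term) (hW : 1 ≤ W) : (subs W C).length ≤ W := by
  unfold subs
  have key : ∀ (C : Term) (acc : List Term), acc.length ≤ W →
      (C.foldl (subStep W) acc).length ≤ W := by
    intro C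
    induction C with
    | nil => intro acc h; exact h
    | cons l C ih => intro acc h; exact ih _ (subStep_length W acc l h)
  exact key C _ (by simpa using hW)

theorem subs_subset (W : ℕ) (C : Term) : ∀ c ∈ subs W C, ∀ l ∈ c, l ∈ C := by
  unfold subs
  have key : ∀ (C D : Term) (acc : List Term), (∀ c ∈ acc, ∀ l ∈ c, l ∈ D) →
      ∀ c ∈ C.foldl (subStep W) acc, ∀ l ∈ c, l ∈ D ++ C := by
    intro C
    induction C with
    | nil => intro D acc h c hc l hl; simpa using h c hc l hl
    | cons x C ih =>
      intro D acc h c hc l hl
      have h1 : ∀ c ∈ subStep W acc x, ∀ l ∈ c, l ∈ D ++ [x] := by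
        intro c hc l hl
        unfold subStep at hc
        split_ifs at hc
        · rw [List.mem_append] at hc
          rcases hc with hc | hc
          · have := h c hc l hl
            simp [this]
          · rw [List.mem_map] at hc
            obtain ⟨c', hc', rfl⟩ := hc
            rw [List.mem_cons] at hl
            rcases hl with rfl | hl
            · simp
            · have := h c' hc' l hl
              simp [this]
        · simp at hc
      have h2 := ih (D ++ [x]) _ h1 c hc l hl
      simpa using h2
  intro c hc l hl
  have := key C [] [[]] (by simp) c hc l hl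
  simpa using this

theorem mem_subs (W : ℕ) (C T : Term) (hC : 2 ^ C.length ≤ W) (hT : T.Sublist C) :
    T.reverse ∈ subs W C := by
  unfold subs
  have key : ∀ (C T D : Term) (acc : List Term), T.Sublist C → D ∈ acc →
      acc.length * 2 ^ C.length ≤ W → T.reverse ++ D ∈ C.foldl (subStep W) acc := by
    intro C
    induction C with
    | nil =>
      intro T D acc hT hD _
      rw [List.sublist_nil] at hT
      subst hT
      simpa using hD
    | cons x C ih =>
      intro T D acc hT hD hlen
      have h0 : (acc ++ acc.map (fun t => x :: t)).length ≤ W := by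
        have h1 : 1 ≤ 2 ^ C.length := Nat.one_le_two_pow
        have h2 : acc.length * 2 * 1 ≤ acc.length * 2 * 2 ^ C.length := Nat.mul_le_mul_left _ h1
        rw [List.length_cons, pow_succ] at hlen
        simp only [List.length_append, List.length_map]
        nlinarith
      have h1 : subStep W acc x = acc ++ acc.map (fun t => x :: t) := by
        unfold subStep
        rw [if_pos h0]
      rw [List.foldl_cons, h1]
      have hlen' : (acc ++ acc.map (fun t => x :: t)).length * 2 ^ C.length ≤ W := by
        rw [List.length_cons, pow_succ] at hlen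
        simp only [List.length_append, List.length_map]
        nlinarith
      cases hT with
      | cons _ h => exact ih T D _ h (List.mem_append_left _ hD) hlen'
      | cons_cons _ h =>
        rename_i T'
        have := ih T' (x :: D) _ h (List.mem_append_right _ (List.mem_map.2 ⟨D, hD, rfl⟩)) hlen'
        simpa using this
  have := key C T [] [[]] hT (by simp) (by simpa using hC)
  simpa using this

theorem mem_lits {n : ℕ} {l : Lit} : l ∈ lits n ↔ l.1 < n := by
  unfold lits
  rw [List.mem_flatMap]
  constructor
  · rintro ⟨i, hi, hl⟩
    rw [List.mem_range] at hi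
    simp only [List.mem_cons, List.not_mem_nil, or_false] at hl
    rcases hl with rfl | rfl <;> exact hi
  · intro h
    refine ⟨l.1, List.mem_range.2 h, ?_⟩
    obtain ⟨i, b⟩ := l
    cases b <;> simp

theorem lits_nodup (n : ℕ) : (lits n).Nodup := by
  unfold lits
  rw [List.nodup_flatMap]
  refine ⟨fun i _ => by simp, ?_⟩
  have h : List.Pairwise (fun x y : ℕ => x ≠ y) (List.range n) := List.nodup_range
  refine h.imp ?_
  intro i j hij
  simp [Function.onFun, List.disjoint_left]
  omega

/-- A literal is true at the point `x` of the cube. -/
theorem litSat_ofFn {n : ℕ} (x : Fin n → Bool) (i : Fin n) (b : Bool) :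
    litSat (List.ofFn x) ((i : ℕ), b) = decide (x i = b) := by
  unfold litSat
  simp

theorem litSat_lt {n : ℕ} (x : Fin n → Bool) (l : Lit) (h : litSat (List.ofFn x) l = true) :
    l.1 < n := by
  unfold litSat at h
  rw [decide_eq_true_eq] at h
  by_contra hcon
  rw [List.getElem?_eq_none (by simpa using hcon)] at h
  simp at h

theorem mem_common {n : ℕ} {ys : List (List Bool)} (hne : ys ≠ []) (hlen : ∀ y ∈ ys, y.length = n)
    {l : Lit} : l ∈ common ys ↔ l.1 < n ∧ ∀ y ∈ ys, litSat y l = true := by
  obtain ⟨y, ys', rfl⟩ := List.exists_cons_of_ne_nil hne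
  have h1 : y.length = n := hlen y (by simp)
  unfold common
  rw [List.mem_filter, mem_lits, List.all_eq_true, List.headD_cons, h1]

theorem common_nodup (ys : List (List Bool)) : (common ys).Nodup := (lits_nodup _).filter _

/-- A term whose literals are those of a given term. -/
theorem termSat_congr (x : List Bool) (c d : Term) (h : ∀ l, l ∈ c ↔ l ∈ d) :
    termSat x c = termSat x d := by
  unfold termSat
  rw [Bool.eq_iff_iff, List.all_eq_true, List.all_eq_true]
  simp only [h]

/-- If all the points satisfy the term `T` and there are few common literals, then `T` is proposed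
(up to the order of the literals). -/
theorem exists_cand {n t : ℕ} {ys : List (List Bool)} (hne : ys ≠ [])
    (hlen : ∀ y ∈ ys, ∃ x : Fin n → Bool, y = List.ofFn x) (T : Term)
    (hT : ∀ y ∈ ys, termSat y T = true) (ht : 2 ^ (common ys).length ≤ t) :
    ∃ c ∈ subs t (common ys), ∀ x, termSat x c = termSat x T := by
  refine ⟨((common ys).filter (fun l => decide (l ∈ T))).reverse,
    mem_subs t _ _ ht (List.filter_sublist), fun x => ?_⟩
  apply termSat_congr
  intro l
  rw [List.mem_reverse, List.mem_filter, decide_eq_true_eq]
  constructor
  · exact fun h => h.2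
  · intro h
    refine ⟨?_, h⟩
    rw [mem_common (n := n) hne (fun y hy => by obtain ⟨x, rfl⟩ := hlen y hy; simp)]
    have h1 : ∀ y ∈ ys, litSat y l = true := by
      intro y hy
      have := hT y hy
      unfold termSat at this
      rw [List.all_eq_true] at this
      exact this l h
    obtain ⟨y, ys', rfl⟩ := List.exists_cons_of_ne_nil hne
    obtain ⟨x, hx⟩ := hlen y (by simp)
    refine ⟨?_, h1⟩
    have h2 := h1 y (by simp)
    rw [hx] at h2
    exact litSat_lt x l h2

/-- The number of common literals is at most the number of the coordinates that may be fixed. -/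
theorem common_card {n : ℕ} {ys : List (List Bool)} (hne : ys ≠ [])
    (hlen : ∀ y ∈ ys, ∃ x : Fin n → Bool, y = List.ofFn x) (I : Finset (Fin n))
    (hI : ∀ (i : Fin n) (b : Bool), (∀ y ∈ ys, litSat y ((i : ℕ), b) = true) → i ∈ I) :
    (common ys).length ≤ I.card := by
  have hlen' : ∀ y ∈ ys, y.length = n := fun y hy => by obtain ⟨x, rfl⟩ := hlen y hy; simp
  have hmem : ∀ l ∈ common ys, l.1 < n ∧ ∀ y ∈ ys, litSat y l = true := fun l hl =>
    (mem_common hne hlen').1 hl
  have h1 : ((common ys).map Prod.fst).Nodup := by
    refine (List.nodup_map_iff_inj_on (common_nodup ys)).2 ?_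
    rintro ⟨i, b⟩ h1 ⟨j, c⟩ h2 hij
    have hij' : i = j := hij
    subst hij'
    obtain ⟨y, ys', rfl⟩ := List.exists_cons_of_ne_nil hne
    have g1 := (hmem _ h1).2 y (by simp)
    have g2 := (hmem _ h2).2 y (by simp)
    unfold litSat at g1 g2
    rw [decide_eq_true_eq] at g1 g2
    rw [g1] at g2
    simpa using g2
  have h2 : ((common ys).map Prod.fst).toFinset ⊆ I.image (fun i : Fin n => (i : ℕ)) := by
    intro k hk
    rw [List.mem_toFinset, List.mem_map] at hk
    obtain ⟨⟨i, b⟩, hl, rfl⟩ := hk
    have h3 := hmem _ hl
    rw [Finset.mem_image]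
    exact ⟨⟨i, h3.1⟩, hI ⟨i, h3.1⟩ b h3.2, rfl⟩
  calc (common ys).length = ((common ys).map Prod.fst).toFinset.card := by
        rw [List.toFinset_card_of_nodup h1, List.length_map]
    _ ≤ (I.image (fun i : Fin n => (i : ℕ))).card := Finset.card_le_card h2
    _ ≤ I.card := Finset.card_image_le

theorem cand_length (t r : ℕ) (ht : 1 ≤ t) (h : Dnf) (tup : List Ex) :
    (cand t r h tup).length ≤ t := by
  unfold cand
  split_ifs
  · exact subs_length t _ ht
  · simp

theorem stage_length (t r : ℕ) (ht : 1 ≤ t) (test : List Ex) (h : Dnf) (st : List Ex) :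
    (stage t r test h st).length ≤ h.length + t * t := by
  unfold stage
  rw [List.length_append]
  refine Nat.add_le_add_left ((List.length_filter_le _ _).trans ?_) _
  rw [List.length_flatMap]
  have h1 : ((pieces (r * t) t st).map fun tup => (cand t r h tup).length).sum ≤
      (pieces (r * t) t st).length • t := by
    have h2 := List.sum_le_card_nsmul ((pieces (r * t) t st).map fun tup =>
      (cand t r h tup).length) t (by
        intro x hx
        rw [List.mem_map] at hx
        obtain ⟨tup, _, rfl⟩ := hx
        exact cand_length t r ht h tup)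
    rwa [List.length_map] at h2
  refine h1.trans ?_
  unfold pieces
  simp

end Pool.Agent.N587.DL
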