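import Mathlib

/-!
# Distributions of bounded density with respect to a product distribution: few biased coordinates
-/

set_option autoImplicit false

namespace Pool.Agent.N587.DL

open Finset

/-- The probability of the bit `b` if `1` has probability `p`. -/
noncomputable def pr (p : ℝ) (b : Bool) : ℝ := if b = true then p else 1 - p

theorem sum_prod_bool {n : ℕ} (g : Fin n → Bool → ℝ) :
    ∑ x : Fin n → Bool, ∏ i, g i (x i) = ∏ i, (g i true + g i false) := by
  have h := Finset.prod_univ_sum (fun _ : Fin n => (univ : Finset Bool)) g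
  rw [Fintype.piFinset_univ] at h
  rw [← h]
  refine prod_congr rfl fun i _ => ?_
  simp

theorem two_log_le : Real.log 2 ≤ 5 / 2 * (1 - Real.log 2) := by
  have := Real.log_two_lt_d9
  linarith

theorem bias {n : ℕ} (a : ℕ) (ha : 2 ≤ a) (p : Fin n → ℝ)
    (hp : ∀ i, 1 / (a : ℝ) ≤ p i ∧ p i ≤ 1 - 1 / a) (K : ℝ) (w : (Fin n → Bool) → ℝ)
    (hw : ∀ x, 0 ≤ w x) (hwK : ∀ x, w x ≤ K * ∏ i, pr (p i) (x i))
    (R : (Fin n → Bool) → Prop) [DecidablePred R] (ρ : ℝ) (hρ : ρ = ∑ x, if R x then w x else 0)
    (hρ0 : 0 < ρ) (I : Finset (Fin n)) (b : Fin n → Bool)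
    (hI : ∀ i ∈ I, (∑ x, if R x ∧ x i ≠ b i then w x else 0) ≤ ρ / (2 * a)) :
    (2 : ℝ) ^ I.card ≤ (K / ρ) ^ (5 * a) := by
  classical
  have ha0 : (0 : ℝ) < a := by positivity
  have ha2 : (2 : ℝ) ≤ a := by exact_mod_cast ha
  have hinv : 0 < 1 / (a : ℝ) := by positivity
  have hinv2 : 1 / (a : ℝ) ≤ 1 / 2 := one_div_le_one_div_of_le (by norm_num) ha2
  set V : (Fin n → Bool) → ℝ := fun x => ((I.filter fun i => x i ≠ b i).card : ℝ) with hV
  set A : ℝ := ∑ x, if R x then w x * V x else 0 with hA
  -- the average of `V`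
  have hAle : A ≤ I.card * (ρ / (2 * a)) := by
    have h1 : A = ∑ i ∈ I, ∑ x, if R x ∧ x i ≠ b i then w x else 0 := by
      rw [hA, sum_comm]
      refine sum_congr rfl fun x _ => ?_
      by_cases hR : R x
      · simp only [hR, if_true, true_and, hV]
        rw [← sum_filter, sum_const, nsmul_eq_mul, mul_comm]
      · simp [hR]
    rw [h1]
    calc ∑ i ∈ I, (∑ x, if R x ∧ x i ≠ b i then w x else 0) ≤ ∑ _i ∈ I, ρ / (2 * a) :=
          sum_le_sum hI
      _ = I.card * (ρ / (2 * a)) := by rw [sum_const, nsmul_eq_mul]
  set B : ℝ := ∑ x, if R x then w x * (1 / 2) ^ (I.filter fun i => x i ≠ b i).card else 0 with hB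
  -- upper bound
  have hK0 : 0 ≤ K := by
    have h0 : 0 < ∑ x, w x := by
      refine lt_of_lt_of_le hρ0 ?_
      rw [hρ]
      refine sum_le_sum fun x _ => ?_
      split_ifs
      · exact le_rfl
      · exact hw x
    obtain ⟨x, _, hx⟩ : ∃ x ∈ (univ : Finset (Fin n → Bool)), 0 < w x := by
      by_contra hcon
      push Not at hcon
      have := sum_nonpos hcon
      linarith
    have h1 := hwK x
    have h2 : 0 ≤ ∏ i, pr (p i) (x i) := prod_nonneg fun i _ => by
      have := hp i
      unfold pr
      split_ifs <;> linarith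
    by_contra hcon
    push Not at hcon
    nlinarith
  have hpr : ∀ i c, 0 ≤ pr (p i) c := fun i c => by
    have := hp i
    unfold pr
    split_ifs <;> linarith
  have hup : B ≤ K * Real.exp (-(I.card / (2 * a))) := by
    have h1 : B ≤ ∑ x : Fin n → Bool, K * ∏ i, (pr (p i) (x i) *
        (if i ∈ I ∧ x i ≠ b i then 1 / 2 else 1)) := by
      refine sum_le_sum fun x _ => ?_
      have e1 : ∏ i, (pr (p i) (x i) * (if i ∈ I ∧ x i ≠ b i then (1 : ℝ) / 2 else 1)) =
          (∏ i, pr (p i) (x i)) * (1 / 2) ^ (I.filter fun i => x i ≠ b i).card := by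
        rw [prod_mul_distrib]
        congr 1
        rw [prod_ite, prod_const_one, mul_one, prod_const]
        congr 2
        ext i
        simp
      rw [e1]
      have h3 : (0 : ℝ) ≤ (1 / 2) ^ (I.filter fun i => x i ≠ b i).card := by positivity
      by_cases hR : R x
      · simp only [hR, if_true]
        rw [← mul_assoc]
        exact mul_le_mul_of_nonneg_right (hwK x) h3
      · simp only [hR, if_false]
        have h4 : 0 ≤ ∏ i, pr (p i) (x i) := prod_nonneg fun i _ => hpr i _
        positivity
    refine h1.trans ?_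
    rw [← mul_sum]
    refine mul_le_mul_of_nonneg_left ?_ hK0
    rw [sum_prod_bool (fun i c => pr (p i) c * (if i ∈ I ∧ c ≠ b i then 1 / 2 else 1))]
    calc ∏ i, (pr (p i) true * (if i ∈ I ∧ true ≠ b i then (1 : ℝ) / 2 else 1) +
          pr (p i) false * (if i ∈ I ∧ false ≠ b i then 1 / 2 else 1))
        ≤ ∏ i, (if i ∈ I then Real.exp (-(1 / (2 * a))) else 1) := by
          refine prod_le_prod (fun i _ => ?_) fun i _ => ?_
          · have g1 := hpr i true
            have g2 := hpr i false
            split_ifs <;> positivity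
          · have g1 := hp i
            by_cases hi : i ∈ I
            · simp only [hi, true_and, if_true]
              have g2 : 1 - 1 / (2 * (a : ℝ)) ≤ Real.exp (-(1 / (2 * a))) := by
                have := Real.add_one_le_exp (-(1 / (2 * (a : ℝ))))
                linarith
              have g3 : 1 / (2 * (a : ℝ)) = 1 / a / 2 := by field_simp
              have g4 : 1 - 1 / (a : ℝ) / 2 ≤ Real.exp (-(1 / (2 * a))) := by
                rw [← g3]; exact g2
              refine le_trans ?_ g4
              cases hb : b i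
              · simp [pr]
                linarith [g1.1, one_div (a : ℝ)]
              · simp [pr]
                linarith [g1.2, one_div (a : ℝ)]
            · simp [hi, pr]
      _ = Real.exp (-(I.card / (2 * a))) := by
          rw [prod_ite, prod_const_one, mul_one, prod_const, ← Real.exp_nat_mul]
          congr 1
          simp only [mem_univ, true_and, filter_mem_eq_inter, univ_inter]
          ring
  -- lower bound
  have hlow : ρ * Real.exp (-(Real.log 2 * (I.card / (2 * a)))) ≤ B := by
    have hl2 : 0 < Real.log 2 := Real.log_pos (by norm_num)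
    obtain ⟨m, hm⟩ : ∃ m : ℝ, m = A / ρ := ⟨_, rfl⟩
    have hmρ : m * ρ = A := by rw [hm]; field_simp
    have h1 : ∑ x, (if R x then w x * (Real.exp (-(Real.log 2 * m)) *
        (1 - Real.log 2 * (V x - m))) else 0) ≤ B := by
      refine sum_le_sum fun x _ => ?_
      by_cases hR : R x
      · simp only [hR, if_true]
        refine mul_le_mul_of_nonneg_left ?_ (hw x)
        have e1 : ((1 : ℝ) / 2) ^ (I.filter fun i => x i ≠ b i).card =
            Real.exp (-(Real.log 2 * V x)) := by
          rw [one_div, inv_pow, Real.exp_neg, ← Real.rpow_natCast,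
            Real.rpow_def_of_pos (by norm_num)]
        rw [e1]
        have e2 : Real.exp (-(Real.log 2 * V x)) = Real.exp (-(Real.log 2 * m)) *
            Real.exp (-(Real.log 2 * (V x - m))) := by
          rw [← Real.exp_add]
          congr 1
          ring
        rw [e2]
        refine mul_le_mul_of_nonneg_left ?_ (Real.exp_pos _).le
        have := Real.add_one_le_exp (-(Real.log 2 * (V x - m)))
        linarith
      · simp [hR]
    have h2 : ∑ x, (if R x then w x * (Real.exp (-(Real.log 2 * m)) *
        (1 - Real.log 2 * (V x - m))) else 0) = ρ * Real.exp (-(Real.log 2 * m)) := by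
      have e3 : ∀ x, (if R x then w x * (Real.exp (-(Real.log 2 * m)) *
          (1 - Real.log 2 * (V x - m))) else 0) =
          Real.exp (-(Real.log 2 * m)) * ((1 + Real.log 2 * m) * (if R x then w x else 0) -
            Real.log 2 * (if R x then w x * V x else 0)) := by
        intro x
        by_cases hR : R x
        · simp only [hR, if_true]; ring
        · simp [hR]
      rw [sum_congr rfl fun x _ => e3 x, ← mul_sum, sum_sub_distrib, ← mul_sum, ← mul_sum, ← hρ,
        ← hA, ← hmρ]
      ring
    rw [h2] at h1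
    refine le_trans ?_ h1
    refine mul_le_mul_of_nonneg_left ?_ hρ0.le
    apply Real.exp_le_exp.2
    have h3 : m ≤ I.card / (2 * a) := by
      rw [hm, div_le_iff₀ hρ0]
      calc A ≤ I.card * (ρ / (2 * a)) := hAle
        _ = I.card / (2 * a) * ρ := by ring
    have := mul_le_mul_of_nonneg_left h3 hl2.le
    linarith
  have hmain : Real.exp ((1 - Real.log 2) * (I.card / (2 * a))) ≤ K / ρ := by
    rw [le_div_iff₀ hρ0]
    have h1 := hlow.trans hup
    have h2 : Real.exp ((1 - Real.log 2) * (I.card / (2 * a))) * ρ =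
        (ρ * Real.exp (-(Real.log 2 * (I.card / (2 * a))))) * Real.exp (I.card / (2 * a)) := by
      rw [mul_assoc, ← Real.exp_add, mul_comm]
      congr 2
      ring
    rw [h2]
    calc (ρ * Real.exp (-(Real.log 2 * (I.card / (2 * a))))) * Real.exp (I.card / (2 * a))
        ≤ (K * Real.exp (-(I.card / (2 * a)))) * Real.exp (I.card / (2 * a)) :=
          mul_le_mul_of_nonneg_right h1 (Real.exp_pos _).le
      _ = K := by
          rw [mul_assoc, ← Real.exp_add]
          simp
  calc (2 : ℝ) ^ I.card = Real.exp (Real.log 2 * I.card) := by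
        rw [← Real.rpow_natCast, Real.rpow_def_of_pos (by norm_num)]
    _ ≤ Real.exp ((5 * a : ℕ) * ((1 - Real.log 2) * (I.card / (2 * a)))) := by
        apply Real.exp_le_exp.2
        have e4 : ((5 * a : ℕ) : ℝ) * ((1 - Real.log 2) * (I.card / (2 * a))) =
            (5 / 2 * (1 - Real.log 2)) * I.card := by
          push_cast
          field_simp
        rw [e4]
        exact mul_le_mul_of_nonneg_right two_log_le (Nat.cast_nonneg _)
    _ = (Real.exp ((1 - Real.log 2) * (I.card / (2 * a)))) ^ (5 * a) := by
        rw [Real.exp_nat_mul]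
    _ ≤ (K / ρ) ^ (5 * a) := pow_le_pow_left₀ (Real.exp_pos _).le hmain _

end Pool.Agent.N587.DL
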