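import Mathlib

/-!
# Expectation functionals on lists of independent points
-/

set_option autoImplicit false

namespace Pool.Agent.N587.DL

variable {α : Type}

/-- A positive linear functional. -/
structure Pos (E : (α → ℝ) → ℝ) : Prop where
  mono : ∀ F G : α → ℝ, (∀ a, F a ≤ G a) → E F ≤ E G
  add : ∀ F G : α → ℝ, E (fun a => F a + G a) = E F + E G
  smul : ∀ (c : ℝ) (F : α → ℝ), E (fun a => c * F a) = c * E F

namespace Pos

variable {E : (α → ℝ) → ℝ} (hE : Pos E)
include hE

theorem zero : E (fun _ => 0) = 0 := by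
  have := hE.smul 0 (fun _ => 0)
  simpa using this

theorem nonneg {F : α → ℝ} (h : ∀ a, 0 ≤ F a) : 0 ≤ E F := by
  rw [← hE.zero]
  exact hE.mono _ _ h

theorem mul_right (c : ℝ) (F : α → ℝ) : E (fun a => F a * c) = E F * c := by
  have := hE.smul c F
  simp only [mul_comm c] at this
  exact this

theorem const (c : ℝ) : E (fun _ => c) = c * E (fun _ => 1) := by
  have := hE.smul c (fun _ => 1)
  simpa using this

theorem sub (F G : α → ℝ) : E (fun a => F a - G a) = E F - E G := by
  have h1 := hE.add F (fun a => -1 * G a)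
  rw [hE.smul] at h1
  have h2 : (fun a => F a - G a) = fun a => F a + -1 * G a := by funext a; ring
  rw [h2, h1]
  ring

theorem sum {ι : Type} (s : Finset ι) (F : ι → α → ℝ) :
    E (fun a => ∑ i ∈ s, F i a) = ∑ i ∈ s, E (F i) := by
  classical
  induction s using Finset.induction_on with
  | empty => simpa using hE.zero
  | insert i s hi ih =>
    simp only [Finset.sum_insert hi]
    rw [hE.add, ih]

end Pos

/-- The functional on lists of `k` independent elements. -/
def exL (E : (α → ℝ) → ℝ) : ℕ → (List α → ℝ) → ℝ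
  | 0, F => F []
  | k + 1, F => E fun a => exL E k fun l => F (a :: l)

theorem exL_zero (E : (α → ℝ) → ℝ) (F : List α → ℝ) : exL E 0 F = F [] := rfl

theorem exL_succ (E : (α → ℝ) → ℝ) (k : ℕ) (F : List α → ℝ) :
    exL E (k + 1) F = E fun a => exL E k fun l => F (a :: l) := rfl

theorem Pos.exL {E : (α → ℝ) → ℝ} (hE : Pos E) : ∀ k, Pos (exL E k)
  | 0 => ⟨fun F G h => h [], fun _ _ => rfl, fun _ _ => rfl⟩
  | k + 1 => by
    have ih := hE.exL k
    refine ⟨fun F G h => ?_, fun F G => ?_, fun c F => ?_⟩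
    · exact hE.mono _ _ fun a => ih.mono _ _ fun l => h _
    · simp only [exL_succ]
      rw [← hE.add]
      congr 1
      funext a
      exact ih.add _ _
    · simp only [exL_succ]
      rw [← hE.smul]
      congr 1
      funext a
      exact ih.smul _ _

theorem exL_prod {E : (α → ℝ) → ℝ} (hE : Pos E) (g : α → ℝ) :
    ∀ k, exL E k (fun l => (l.map g).prod) = (E g) ^ k
  | 0 => by simp [exL]
  | k + 1 => by
    rw [exL_succ]
    simp only [List.map_cons, List.prod_cons]
    have : (fun a => exL E k fun l => g a * (l.map g).prod) = fun a => g a * (E g) ^ k := by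
      funext a
      rw [(hE.exL k).smul, exL_prod hE g k]
    rw [this, hE.mul_right, pow_succ, mul_comm]

theorem exL_one {E : (α → ℝ) → ℝ} (hE : Pos E) (h1 : E (fun _ => 1) = 1) (k : ℕ) :
    exL E k (fun _ => 1) = 1 := by
  have e : (fun _ : List α => (1 : ℝ)) = fun l => (l.map (fun _ => (1 : ℝ))).prod := by
    funext l
    simp
  rw [e, exL_prod hE, h1, one_pow]

theorem exL_const {E : (α → ℝ) → ℝ} (hE : Pos E) (h1 : E (fun _ => 1) = 1) (k : ℕ) (c : ℝ) :
    exL E k (fun _ => c) = c := by
  rw [(hE.exL k).const, exL_one hE h1, mul_one]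

/-- The functional depends only on the lists of length `k`. -/
theorem exL_congr {E : (α → ℝ) → ℝ} : ∀ (k : ℕ) {F G : List α → ℝ},
    (∀ l : List α, l.length = k → F l = G l) → exL E k F = exL E k G
  | 0, F, G, h => h [] rfl
  | k + 1, F, G, h => by
    rw [exL_succ, exL_succ]
    congr 1
    funext a
    exact exL_congr k fun l hl => h (a :: l) (by simp [hl])

theorem exL_mono {E : (α → ℝ) → ℝ} (hE : Pos E) : ∀ (k : ℕ) {F G : List α → ℝ},
    (∀ l : List α, l.length = k → F l ≤ G l) → exL E k F ≤ exL E k G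
  | 0, F, G, h => h [] rfl
  | k + 1, F, G, h => by
    rw [exL_succ, exL_succ]
    exact hE.mono _ _ fun a => exL_mono hE k fun l hl => h (a :: l) (by simp [hl])

theorem exL_add (E : (α → ℝ) → ℝ) : ∀ (j k : ℕ) (F : List α → ℝ),
    exL E (j + k) F = exL E j fun l => exL E k fun l' => F (l ++ l')
  | 0, k, F => by rw [Nat.zero_add, exL_zero]; simp
  | j + 1, k, F => by
    have e : j + 1 + k = (j + k) + 1 := by ring
    rw [e, exL_succ, exL_succ]
    congr 1
    funext a
    rw [exL_add E j k]
    simp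

/-- Comparison of two functionals on nonnegative functions. -/
theorem exL_le {E E' : (α → ℝ) → ℝ} (hE : Pos E) (hE' : Pos E')
    (h : ∀ F : α → ℝ, (∀ a, 0 ≤ F a) → E' F ≤ E F) : ∀ (k : ℕ) (F : List α → ℝ), (∀ l, 0 ≤ F l) →
    exL E' k F ≤ exL E k F
  | 0, F, _ => le_rfl
  | k + 1, F, hF => by
    rw [exL_succ, exL_succ]
    refine (h _ fun a => (hE'.exL k).nonneg fun l => hF _).trans ?_
    exact hE.mono _ _ fun a => exL_le hE hE' h k _ fun l => hF _

end Pool.Agent.N587.DL
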