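import Pool.Agent.N587.DL.Defs
import Pool.Agent.N587.DL.Expect

/-!
# Pieces of lists of independent points; the first good element of a block
-/

set_option autoImplicit false

namespace Pool.Agent.N587.DL

variable {α : Type}

theorem pieces_zero (b : ℕ) (l : List α) : pieces b 0 l = [] := rfl

theorem pieces_succ (b k : ℕ) (l l' : List α) (hl : l.length = b) :
    pieces b (k + 1) (l ++ l') = l :: pieces b k l' := by
  unfold pieces
  rw [List.range_succ_eq_map, List.map_cons, List.map_map]
  congr 1
  · unfold piece
    simp [← hl]
  · apply List.map_congr_left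
    intro i _
    unfold piece
    simp only [Function.comp_apply, Nat.succ_eq_add_one]
    congr 1
    rw [show (i + 1) * b = l.length + i * b by rw [hl]; ring, List.drop_append]
    simp

theorem exL_pieces {E : (α → ℝ) → ℝ} (b : ℕ) : ∀ (k : ℕ) (F : List (List α) → ℝ),
    exL E (k * b) (fun l => F (pieces b k l)) = exL (exL E b) k F
  | 0, F => by
    rw [Nat.zero_mul, exL_zero, exL_zero, pieces_zero]
  | k + 1, F => by
    have e : (k + 1) * b = b + k * b := by ring
    rw [e, exL_add, exL_succ]
    refine exL_congr b fun l hl => ?_
    rw [← exL_pieces b k]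
    refine exL_congr (k * b) fun l' _ => ?_
    rw [pieces_succ b k l l' hl]

/-- The extra elements are ignored. -/
theorem pieces_append (b k : ℕ) (l l' : List α) (hl : k * b ≤ l.length) :
    pieces b k (l ++ l') = pieces b k l := by
  unfold pieces
  apply List.map_congr_left
  intro i hi
  rw [List.mem_range] at hi
  unfold piece
  have h1 : (i + 1) * b ≤ k * b := Nat.mul_le_mul_right b hi
  have h2 : i * b ≤ l.length := by
    have : i * b ≤ (i + 1) * b := Nat.mul_le_mul_right b (by omega)
    omega
  rw [List.drop_append_of_le_length h2, List.take_append_of_le_length]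
  rw [List.length_drop]
  have : (i + 1) * b = i * b + b := by ring
  omega

/-- The sum of the geometric series. -/
noncomputable def kap (u : ℝ) (b : ℕ) : ℝ := ∑ j ∈ Finset.range b, (1 - u) ^ j

/-- The law of the first good element of a block. -/
theorem exL_first {E : (α → ℝ) → ℝ} (hE : Pos E) (h1 : E (fun _ => 1) = 1) (P : α → Bool)
    (u : ℝ) (hu : u = E fun a => if P a = true then 1 else 0) (G : List α → ℝ) : ∀ b : ℕ,
    exL E b (fun l => G ((l.filter P).take 1)) =
      kap u b * E (fun a => if P a = true then G [a] else 0) + (1 - u) ^ b * G []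
  | 0 => by simp [exL, kap]
  | b + 1 => by
    have ih := exL_first hE h1 P u hu G b
    rw [exL_succ]
    have e1 : (fun a => exL E b fun l => G (((a :: l).filter P).take 1)) =
        fun a => (if P a = true then G [a] else 0) + (1 - (if P a = true then 1 else 0)) *
          (exL E b fun l => G ((l.filter P).take 1)) := by
      funext a
      by_cases h : P a = true
      · simp only [h, List.filter_cons_of_pos, List.take_succ_cons, List.take_zero, if_true,
          sub_self, zero_mul, add_zero]
        exact exL_const hE h1 b _
      · simp only [h, Bool.false_eq_true, not_false_eq_true, List.filter_cons_of_neg, if_false,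
          sub_zero, one_mul, zero_add]
    rw [e1, hE.add, hE.mul_right, hE.sub, h1, ← hu, ih]
    unfold kap
    rw [Finset.sum_range_succ']
    simp only [pow_succ, ← Finset.sum_mul]
    ring

theorem kap_ge (u : ℝ) (b : ℕ) (hu : 0 < u) (hu1 : u ≤ 1) (hb : 1 ≤ u * b) :
    1 / (2 * u) ≤ kap u b := by
  have h1 : kap u b * u = 1 - (1 - u) ^ b := by
    have := geom_sum_mul (1 - u) b
    unfold kap
    linarith
  have h2 : (1 - u) ^ b ≤ Real.exp (-(u * b)) := by
    calc (1 - u) ^ b ≤ (Real.exp (-u)) ^ b :=
          pow_le_pow_left₀ (by linarith) (by have := Real.add_one_le_exp (-u); linarith) b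
      _ = Real.exp (-(u * b)) := by rw [← Real.exp_nat_mul]; congr 1; ring
  have h3 : Real.exp (-(u * b)) ≤ 1 / 2 := by
    have h4 : Real.exp (-(u * b)) ≤ Real.exp (-1) := Real.exp_le_exp.2 (by linarith)
    have h5 : Real.exp (-1) ≤ 1 / 2 := by
      rw [Real.exp_neg, inv_eq_one_div]
      apply one_div_le_one_div_of_le (by norm_num)
      have := Real.add_one_le_exp (1 : ℝ)
      linarith
    linarith
  rw [div_le_iff₀ (by linarith)]
  nlinarith

/-- The functional of the first good element. -/
noncomputable def firstE (E : (α → ℝ) → ℝ) (P : α → Bool) (κ : ℝ) (F : α → ℝ) : ℝ :=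
  κ * E fun a => if P a = true then F a else 0

theorem Pos.firstE {E : (α → ℝ) → ℝ} (hE : Pos E) (P : α → Bool) {κ : ℝ} (hκ : 0 ≤ κ) :
    Pos (firstE E P κ) := by
  refine ⟨fun F G h => ?_, fun F G => ?_, fun c F => ?_⟩
  · unfold DL.firstE
    refine mul_le_mul_of_nonneg_left (hE.mono _ _ fun a => ?_) hκ
    split_ifs
    · exact h a
    · exact le_rfl
  · unfold DL.firstE
    rw [← mul_add, ← hE.add]
    congr 2
    funext a
    split_ifs <;> simp
  · unfold DL.firstE
    have e : (fun a => if P a = true then c * F a else 0) =
        fun a => c * (if P a = true then F a else 0) := by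
      funext a
      split_ifs <;> simp
    rw [e, hE.smul]
    ring

/-- Tuples of blocks: lower bound for the expectation of a nonnegative function of the list of
the first good elements. -/
theorem exL_tuple {E : (α → ℝ) → ℝ} (hE : Pos E) (h1 : E (fun _ => 1) = 1) (P : α → Bool)
    (u : ℝ) (hu : u = E fun a => if P a = true then 1 else 0) (hu1 : u ≤ 1) (b : ℕ) :
    ∀ (r : ℕ) (G : List α → ℝ), (∀ l, 0 ≤ G l) →
    exL (firstE E P (kap u b)) r G ≤
      exL (exL E b) r (fun bls => G (bls.flatMap fun bl => (bl.filter P).take 1))
  | 0, G, _ => by simp [exL]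
  | r + 1, G, hG => by
    have hκ : 0 ≤ kap u b := Finset.sum_nonneg fun j _ => pow_nonneg (by linarith) j
    rw [exL_succ, exL_succ]
    have h2 : (exL E b) (fun l => exL (firstE E P (kap u b)) r
        (fun ys => G (((l.filter P).take 1) ++ ys))) ≤
        (exL E b) fun a => exL (exL E b) r fun l =>
          G ((a :: l).flatMap fun bl => (bl.filter P).take 1) := by
      refine (hE.exL b).mono _ _ fun a => ?_
      simp only [List.flatMap_cons]
      exact exL_tuple hE h1 P u hu hu1 b r (fun ys => G (((a.filter P).take 1) ++ ys))
        fun l => hG _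
    refine le_trans ?_ h2
    rw [exL_first hE h1 P u hu (fun L => exL (firstE E P (kap u b)) r (fun ys => G (L ++ ys))) b]
    have h3 : 0 ≤ (1 - u) ^ b * exL (firstE E P (kap u b)) r (fun ys => G ([] ++ ys)) :=
      mul_nonneg (pow_nonneg (by linarith) b)
        (((hE.firstE P hκ).exL r).nonneg fun l => hG _)
    have h4 : (firstE E P (kap u b)) (fun a => exL (firstE E P (kap u b)) r fun l => G (a :: l)) =
        kap u b * E (fun a => if P a = true then
          exL (firstE E P (kap u b)) r (fun ys => G ([a] ++ ys)) else 0) := rfl
    rw [h4]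
    linarith

end Pool.Agent.N587.DL
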