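import Pool.Agent.N587.DL.Stage

/-!
# The stages together, and the test sample
-/

set_option autoImplicit false

namespace Pool.Agent.N587.DL

open Finset

open Classical in
/-- A process in which a bad state improves with probability at least `1 - η`. -/
theorem chain {H β : Type} {E : (β → ℝ) → ℝ} (hE : Pos E) (h1 : E (fun _ => 1) = 1)
    (step : H → β → H) (bad : H → Prop) (g : H → ℕ) (η : ℝ)
    (hanti : ∀ h b, ¬ bad h → ¬ bad (step h b)) (hz : ∀ h, g h = 0 → ¬ bad h)
    (hη : 0 ≤ η)
    (hstep : ∀ h, bad h → E (fun b => if g (step h b) < g h then 0 else 1) ≤ η) :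
    ∀ (k : ℕ) (h : H), g h ≤ k →
      exL E k (fun bs => if bad (bs.foldl step h) then 1 else 0) ≤ g h * η
  | 0, h, hk => by
    rw [exL_zero, List.foldl_nil, if_neg (hz h (by omega))]
    positivity
  | k + 1, h, hk => by
    by_cases hb : bad h
    · rw [exL_succ]
      have hg : 1 ≤ g h := by
        rcases Nat.eq_zero_or_pos (g h) with h0 | h0
        · exact absurd hb (hz h h0)
        · exact h0
      have hgr : (1 : ℝ) ≤ g h := by exact_mod_cast hg
      have h2 : E (fun b => exL E k fun bs => if bad ((b :: bs).foldl step h) then 1 else 0) ≤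
          E (fun b => ((g h : ℝ) - 1) * η + (if g (step h b) < g h then 0 else 1)) := by
        refine hE.mono _ _ fun b => ?_
        by_cases hlt : g (step h b) < g h
        · rw [if_pos hlt, add_zero]
          have h3 := chain hE h1 step bad g η hanti hz hη hstep k (step h b) (by omega)
          refine h3.trans ?_
          refine mul_le_mul_of_nonneg_right ?_ hη
          have : g (step h b) + 1 ≤ g h := hlt
          have h4 : ((g (step h b) + 1 : ℕ) : ℝ) ≤ g h := by exact_mod_cast this
          push_cast at h4
          linarith
        · rw [if_neg hlt]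
          have h3 : exL E k (fun bs => if bad ((b :: bs).foldl step h) then 1 else 0) ≤
              exL E k (fun _ => 1) := (hE.exL k).mono _ _ fun bs => by split_ifs <;> norm_num
          rw [exL_one hE h1] at h3
          have h5 : 0 ≤ ((g h : ℝ) - 1) * η := mul_nonneg (by linarith) hη
          linarith
      refine h2.trans ?_
      rw [hE.add, hE.const, h1]
      have := hstep h hb
      linarith
    · have h2 : ∀ (bs : List β) (h : H), ¬ bad h → ¬ bad (bs.foldl step h) := by
        intro bs
        induction bs with
        | nil => intro h hh; exact hh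
        | cons b bs ih => intro h hh; exact ih _ (hanti h b hh)
      have h3 : exL E (k + 1) (fun bs => if bad (bs.foldl step h) then (1 : ℝ) else 0) =
          exL E (k + 1) (fun _ => 0) := by
        congr 1
        funext bs
        rw [if_neg (h2 bs h hb)]
      rw [h3, (hE.exL _).zero]
      positivity

/-- The false positives of a term. -/
noncomputable def fp {n : ℕ} (F : Dnf) (w : (Fin n → Bool) → ℝ) (c : Term) : ℝ :=
  Ew F w fun z => if (!z.2 && termSat z.1 c) = true then 1 else 0

theorem fp_congr {n : ℕ} (F : Dnf) (w : (Fin n → Bool) → ℝ) {c c' : Term}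
    (h : ∀ l, l ∈ c ↔ l ∈ c') : fp F w c = fp F w c' := by
  unfold fp
  congr 1
  funext z
  rw [termSat_congr z.1 c c' h]

theorem consis_congr (test : List Ex) {c c' : Term} (h : ∀ l, l ∈ c ↔ l ∈ c') :
    consis test c = consis test c' := by
  unfold consis
  congr 1
  funext z
  rw [termSat_congr z.1 c c' h]

theorem consis_ind (test : List Ex) (c : Term) :
    (if consis test c = true then (1 : ℝ) else 0) =
      (test.map fun z => 1 - (if (!z.2 && termSat z.1 c) = true then (1 : ℝ) else 0)).prod := by
  unfold consis
  induction test with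
  | nil => simp
  | cons z test ih =>
    rw [List.map_cons, List.prod_cons, ← ih, List.all_cons]
    by_cases hz : z.2 = true
    · rw [hz, Bool.true_or, Bool.true_and, Bool.not_true, Bool.false_and,
        if_neg Bool.false_ne_true, sub_zero, one_mul]
    · rw [Bool.not_eq_true] at hz
      by_cases ht : termSat z.1 c = true
      · rw [hz, ht]
        simp
      · rw [Bool.not_eq_true] at ht
        rw [hz, ht, Bool.not_false, Bool.or_true, Bool.true_and, Bool.and_false,
          if_neg Bool.false_ne_true, sub_zero, one_mul]

open Classical in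
/-- A sample that misses the false positives of some term. -/
noncomputable def missed {n : ℕ} (F : Dnf) (w : (Fin n → Bool) → ℝ) (ε : ℝ) (test : List Ex) : ℝ :=
  if ∃ c : Term, (∀ l ∈ c, l.1 < n) ∧ consis test c = true ∧ ε < fp F w c then 1 else 0

theorem missed_prob {n : ℕ} (F : Dnf) (w : (Fin n → Bool) → ℝ) (hw : ∀ x, 0 ≤ w x)
    (hw1 : ∑ x, w x = 1) (ε : ℝ) (N : ℕ) :
    exL (Ew F w) N (missed F w ε) ≤ 4 ^ n * Real.exp (-(ε * N)) := by
  classical
  have hE := Ew_pos F w hw
  have hE1 := Ew_one F w hw1
  set A : Finset (Finset Lit) := (lits n).toFinset.powerset with hA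
  have hcard : A.card = 4 ^ n := by
    rw [hA, card_powerset, List.toFinset_card_of_nodup (lits_nodup n)]
    have : (lits n).length = 2 * n := by
      unfold lits
      rw [List.length_flatMap]
      simp
      ring
    rw [this, pow_mul]
    norm_num
  have h1 : exL (Ew F w) N (missed F w ε) ≤ exL (Ew F w) N (fun test =>
      ∑ S ∈ A, (if ε < fp F w S.toList then (1 : ℝ) else 0) *
        (test.map fun z => 1 - (if (!z.2 && termSat z.1 S.toList) = true
          then (1 : ℝ) else 0)).prod) := by
    refine (hE.exL N).mono _ _ fun test => ?_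
    have hterm : ∀ S ∈ A, 0 ≤ (if ε < fp F w S.toList then (1 : ℝ) else 0) *
        (test.map fun z => 1 - (if (!z.2 && termSat z.1 S.toList) = true
          then (1 : ℝ) else 0)).prod := by
      intro S _
      rw [← consis_ind]
      split_ifs <;> norm_num
    unfold missed
    split_ifs with hc
    · obtain ⟨c, hc1, hc2, hc3⟩ := hc
      have hmem : c.toFinset ∈ A := by
        rw [hA, mem_powerset]
        intro l hl
        rw [List.mem_toFinset] at hl ⊢
        exact mem_lits.2 (hc1 l hl)
      have hcc : ∀ l, l ∈ c ↔ l ∈ c.toFinset.toList := fun l => by simp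
      refine le_trans ?_ (single_le_sum hterm hmem)
      rw [← consis_ind, ← fp_congr F w hcc, ← consis_congr test hcc, if_pos hc3, if_pos hc2]
      norm_num
    · exact sum_nonneg hterm
  refine h1.trans ?_
  rw [(hE.exL N).sum]
  calc _ ≤ ∑ _S ∈ A, Real.exp (-(ε * N)) := by
        refine sum_le_sum fun S _ => ?_
        rw [(hE.exL N).smul, exL_prod hE, hE.sub, hE1]
        split_ifs with hf
        · rw [one_mul]
          change (1 - fp F w S.toList) ^ N ≤ _
          have h2 : fp F w S.toList ≤ 1 := by
            calc fp F w S.toList ≤ Ew F w (fun _ => 1) :=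
                  hE.mono _ _ fun z => by split_ifs <;> norm_num
              _ = 1 := hE1
          calc (1 - fp F w S.toList) ^ N ≤ (Real.exp (-ε)) ^ N := by
                refine pow_le_pow_left₀ (by linarith) ?_ N
                have := Real.add_one_le_exp (-ε)
                linarith
            _ = Real.exp (-(ε * N)) := by
                rw [← Real.exp_nat_mul]
                congr 1
                ring
        · rw [zero_mul]
          exact (Real.exp_pos _).le
    _ = 4 ^ n * Real.exp (-(ε * N)) := by
        rw [sum_const, hcard, nsmul_eq_mul]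
        push_cast
        ring

/-- All terms of `h` have their literals in range and are consistent with the test sample. -/
def Inv (n : ℕ) (test : List Ex) (h : Dnf) : Prop :=
  ∀ c ∈ h, (∀ l ∈ c, l.1 < n) ∧ consis test c = true

theorem mem_pieces {α : Type} {b k : ℕ} {l p : List α} (hp : p ∈ pieces b k l) :
    ∀ a ∈ p, a ∈ l := by
  unfold pieces at hp
  rw [List.mem_map] at hp
  obtain ⟨i, _, rfl⟩ := hp
  intro a ha
  unfold piece at ha
  exact List.mem_of_mem_drop (List.mem_of_mem_take ha)

theorem Inv.stage {n t r : ℕ} {test st : List Ex} {h : Dnf} (hh : Inv n test h)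
    (hst : ∀ z ∈ st, z.1.length = n) : Inv n test (stage t r test h st) := by
  intro c hc
  unfold DL.stage at hc
  rw [List.mem_append] at hc
  rcases hc with hc | hc
  · exact hh c hc
  · rw [List.mem_filter] at hc
    refine ⟨?_, hc.2⟩
    intro l hl
    have h1 := hc.1
    rw [List.mem_flatMap] at h1
    obtain ⟨tup, htup, hcand⟩ := h1
    unfold cand at hcand
    split_ifs at hcand
    · have h2 := subs_subset t _ c hcand l hl
      unfold common at h2
      rw [List.mem_filter, mem_lits] at h2
      refine lt_of_lt_of_le h2.1 ?_
      rcases hys : ((pieces t r tup).flatMap (fst1 h)).map Prod.fst with _ | ⟨y, ys⟩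
      · simp
      · rw [List.headD_cons]
        have h3 : y ∈ ((pieces t r tup).flatMap (fst1 h)).map Prod.fst := by rw [hys]; simp
        rw [List.mem_map] at h3
        obtain ⟨z, hz, rfl⟩ := h3
        rw [List.mem_flatMap] at hz
        obtain ⟨bl, hbl, hz⟩ := hz
        unfold fst1 at hz
        have h4 : z ∈ bl := List.mem_of_mem_filter (List.mem_of_mem_take hz)
        exact (hst z (mem_pieces htup z (mem_pieces hbl z h4))).le
    · simp at hcand

/-- The false positive mass of a formula with consistent terms. -/
theorem fp_dnf {n : ℕ} (F : Dnf) (w : (Fin n → Bool) → ℝ) (hw : ∀ x, 0 ≤ w x) (h : Dnf) (ε : ℝ)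
    (hh : ∀ c ∈ h, fp F w c ≤ ε) :
    Ew F w (fun z => if (!z.2 && dnfSat h z.1) = true then 1 else 0) ≤ h.length * ε := by
  have hE := Ew_pos F w hw
  induction h with
  | nil =>
    have : (fun z : Ex => if (!z.2 && dnfSat [] z.1) = true then (1 : ℝ) else 0) = fun _ => 0 := by
      funext z
      simp [dnfSat]
    rw [this, hE.zero]
    simp
  | cons c h ih =>
    have h1 := ih fun c hc => hh c (List.mem_cons_of_mem _ hc)
    have h2 := hh c (by simp)
    have h3 : Ew F w (fun z => if (!z.2 && dnfSat (c :: h) z.1) = true then 1 else 0) ≤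
        Ew F w (fun z => (if (!z.2 && termSat z.1 c) = true then 1 else 0) +
          (if (!z.2 && dnfSat h z.1) = true then 1 else 0)) := by
      refine hE.mono _ _ fun z => ?_
      have e : dnfSat (c :: h) z.1 = (termSat z.1 c || dnfSat h z.1) := by
        unfold dnfSat
        rw [List.any_cons]
      rw [e]
      cases z.2 <;> cases termSat z.1 c <;> cases dnfSat h z.1 <;> norm_num
    rw [hE.add] at h3
    refine h3.trans ?_
    have h4 : fp F w c = Ew F w (fun z => if (!z.2 && termSat z.1 c) = true then 1 else 0) := rfl
    rw [← h4]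
    push_cast [List.length_cons]
    linarith

end Pool.Agent.N587.DL
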