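import Pool.Agent.N587.DL.Chain

/-!
# The learner is computed in polynomial time by a Turing machine
-/

set_option autoImplicit false

namespace Pool.Agent.N587.DL

open Pool.Agent.NPC

theorem take_eq {β : Type} (l : List β) (k : ℕ) :
    (l.zipIdx.filter (fun q => decide (q.2 < k))).map (fun q => q.1) = l.take k := by
  have e1 : ∀ q ∈ (l.take k).zipIdx, q.2 < k := by
    intro q hq
    rw [List.mem_zipIdx_iff_getElem?] at hq
    by_contra hlt
    rw [List.getElem?_eq_none (by rw [List.length_take]; omega)] at hq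
    simp at hq
  by_cases hk : k ≤ l.length
  · have e2 : ∀ q ∈ (l.drop k).zipIdx (0 + (l.take k).length), ¬ q.2 < k := by
      intro q hq
      have := List.le_snd_of_mem_zipIdx (x := q) hq
      rw [List.length_take] at this
      omega
    conv_lhs => rw [← List.take_append_drop k l]
    rw [List.zipIdx_append, List.filter_append]
    have f1 : (l.take k).zipIdx.filter (fun q => decide (q.2 < k)) = (l.take k).zipIdx := by
      rw [List.filter_eq_self]
      intro q hq
      simpa using e1 q hq
    have f2 : ((l.drop k).zipIdx (0 + (l.take k).length)).filter (fun q => decide (q.2 < k)) =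
        [] := by
      rw [List.filter_eq_nil_iff]
      intro q hq
      simpa using e2 q hq
    rw [f1, f2, List.append_nil]
    exact List.zipIdx_map_fst 0 _
  · rw [List.take_of_length_le (by omega)] at e1 ⊢
    have f1 : l.zipIdx.filter (fun q => decide (q.2 < k)) = l.zipIdx := by
      rw [List.filter_eq_self]
      intro q hq
      simpa using e1 q hq
    rw [f1]
    exact List.zipIdx_map_fst 0 _

section

variable {α β : Type} [TEnc α] [TEnc β]

theorem poly_take {l : α → List β} {k : α → ℕ} (hl : NPC.Poly l)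
    (hk : NPC.Poly k) : NPC.Poly (fun a => (l a).take (k a)) :=
  (NPC.Poly.map (F := fun _ q => q.1) (NPC.Poly.filter (p := fun a (q : β × ℕ) => decide (q.2 < k a))
      (NPC.Poly.zipIdx hl) (NPC.Poly.decide_lt (NPC.Poly.snd (NPC.Poly.snd NPC.Poly.id))
        (hk.comp (NPC.Poly.fst NPC.Poly.id)))) (NPC.Poly.fst (NPC.Poly.snd NPC.Poly.id))).congr fun a => take_eq _ _

theorem poly_drop {l : α → List β} {k : α → ℕ} (hl : NPC.Poly l)
    (hk : NPC.Poly k) : NPC.Poly (fun a => (l a).drop (k a)) :=
  (NPC.Poly.reverse (poly_take (NPC.Poly.reverse hl) (NPC.Poly.sub (NPC.Poly.length hl) hk))).congr fun a => by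
    have _ := a
    rw [List.take_reverse, List.reverse_reverse]
    by_cases h : k a ≤ (l a).length
    · congr 1
      omega
    · rw [List.drop_of_length_le (by omega), List.drop_of_length_le (by omega)]

theorem poly_litSat {x : α → List Bool} {l : α → Lit} (hx : NPC.Poly x) (hl : NPC.Poly l) :
    NPC.Poly (fun a => litSat (x a) (l a)) :=
  NPC.Poly.decide_eq (NPC.Poly.getElem? hx (NPC.Poly.fst hl)) (NPC.Poly.some (NPC.Poly.snd hl))

theorem poly_termSat {x : α → List Bool} {t : α → Term} (hx : NPC.Poly x) (ht : NPC.Poly t) :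
    NPC.Poly (fun a => termSat (x a) (t a)) :=
  NPC.Poly.all (p := fun a l => litSat (x a) l) ht
    (poly_litSat (hx.comp (NPC.Poly.fst NPC.Poly.id)) (NPC.Poly.snd NPC.Poly.id))

theorem poly_dnfSat {x : α → List Bool} {F : α → Dnf} (hF : NPC.Poly F) (hx : NPC.Poly x) :
    NPC.Poly (fun a => dnfSat (F a) (x a)) :=
  NPC.Poly.any (p := fun a t => termSat (x a) t) hF
    (poly_termSat (hx.comp (NPC.Poly.fst NPC.Poly.id)) (NPC.Poly.snd NPC.Poly.id))

theorem poly_lits {l : α → List β} (hl : NPC.Poly l) : NPC.Poly (fun a => lits (l a).length) := by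
  unfold lits
  refine NPC.Poly.flatMap (F := fun _ i => [(i, false), (i, true)]) (NPC.Poly.range_length hl) ?_
  exact NPC.Poly.cons (NPC.Poly.pair (NPC.Poly.snd NPC.Poly.id) (NPC.Poly.const false))
    (NPC.Poly.cons (NPC.Poly.pair (NPC.Poly.snd NPC.Poly.id) (NPC.Poly.const true)) (NPC.Poly.const []))

theorem headD_eq {γ : Type} (l : List γ) (d : γ) : l.headD d = l.getD 0 d := by
  cases l <;> rfl

theorem poly_common {ys : α → List (List Bool)} (hy : NPC.Poly ys) : NPC.Poly (fun a => common (ys a)) := by
  unfold common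
  have h1 : NPC.Poly (fun a => (ys a).headD []) :=
    (NPC.Poly.getD (d := fun _ => []) hy (NPC.Poly.const 0) (NPC.Poly.const [])).congr fun a =>
      (headD_eq _ _).symm
  refine NPC.Poly.filter (p := fun a l => (ys a).all fun y => litSat y l) (poly_lits h1) ?_
  exact NPC.Poly.all (p := fun (q : α × Lit) y => litSat y q.2) (hy.comp (NPC.Poly.fst NPC.Poly.id))
    (poly_litSat (NPC.Poly.snd NPC.Poly.id) (NPC.Poly.snd (NPC.Poly.fst NPC.Poly.id)))

end

theorem subs_sz (W : ℕ) : ∀ (C : Term) (acc : List Term) (B : ℕ), (∀ c ∈ acc, sz c ≤ B) →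
    ∀ c ∈ C.foldl (subStep W) acc, sz c ≤ B + sz C := by
  intro C
  induction C with
  | nil => intro acc B h c hc; have := h c hc; omega
  | cons x C ih =>
    intro acc B h c hc
    have h1 : ∀ c ∈ subStep W acc x, sz c ≤ B + sz x + 1 := by
      intro c hc
      unfold subStep at hc
      split_ifs at hc
      · rw [List.mem_append] at hc
        rcases hc with hc | hc
        · have := h c hc; omega
        · rw [List.mem_map] at hc
          obtain ⟨c', hc', rfl⟩ := hc
          have := h c' hc'
          rw [sz_list_cons]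
          omega
      · simp at hc
    have h2 := ih _ _ h1 c hc
    rw [sz_list_cons]
    omega

theorem subs_len (W : ℕ) : ∀ (C : Term) (acc : List Term), acc.length ≤ W + 1 →
    (C.foldl (subStep W) acc).length ≤ W + 1 := by
  intro C
  induction C with
  | nil => intro acc h; exact h
  | cons x C ih =>
    intro acc h
    refine ih _ ?_
    unfold subStep
    split_ifs with h1
    · omega
    · simp

theorem poly_subs {α : Type} [TEnc α] {W : α → List Unit} {C : α → Term} (hW : NPC.Poly W)
    (hC : NPC.Poly C) : NPC.Poly (fun a => subs (W a).length (C a)) := by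
  obtain ⟨p, hp⟩ := hW.sz_le
  obtain ⟨q, hq⟩ := hC.sz_le
  have hstep : NPC.Poly (fun z : α × List Term × Lit => subStep (W z.1).length z.2.1 z.2.2) := by
    have h1 : NPC.Poly (fun z : α × List Term × Lit => z.2.1 ++ z.2.1.map (fun t => z.2.2 :: t)) := by
      refine NPC.Poly.append (NPC.Poly.fst (NPC.Poly.snd NPC.Poly.id)) ?_
      exact NPC.Poly.map (F := fun (z : α × List Term × Lit) t => z.2.2 :: t)
        (NPC.Poly.fst (NPC.Poly.snd NPC.Poly.id))
        (NPC.Poly.cons (NPC.Poly.snd (NPC.Poly.snd (NPC.Poly.fst NPC.Poly.id))) (NPC.Poly.snd NPC.Poly.id))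
    exact NPC.Poly.ite (NPC.Poly.decide_le (NPC.Poly.length h1)
      (NPC.Poly.length (hW.comp (NPC.Poly.fst NPC.Poly.id)))) h1 (NPC.Poly.const [])
  refine NPC.Poly.foldl (s := fun _ => ([[]] : List Term))
    (F := fun a acc l => subStep (W a).length acc l) hC (NPC.Poly.const [[]]) hstep
    ((p + Polynomial.C 1) * (q + Polynomial.C 2) + Polynomial.C 1) ?_
  intro a k _
  have h1 := subs_len (W a).length ((C a).take k) [[]] (by simp)
  have h2 := subs_sz (W a).length ((C a).take k) [[]] 1 (by
    intro c hc
    rw [List.mem_singleton] at hc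
    subst hc
    simp)
  have h3 := NPC.Poly.sz_take_le (C a) k
  have h4 := hq a
  have h5 := hp a
  have h6 := length_lt_sz (W a)
  have h7 := sz_le_length_mul (((C a).take k).foldl (subStep (W a).length) [[]])
    (1 + sz (C a)) (fun c hc => (h2 c hc).trans (by omega))
  refine h7.trans ?_
  simp only [Polynomial.eval_add, Polynomial.eval_mul, Polynomial.eval_C]
  have h8 : (((C a).take k).foldl (subStep (W a).length) [[]]).length * (1 + sz (C a) + 1) ≤
      (p.eval (sz a) + 1) * (q.eval (sz a) + 2) := Nat.mul_le_mul (by omega) (by omega)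
  omega

section

variable {α β : Type} [TEnc α] [TEnc β]

theorem poly_pieces {b : α → ℕ} {k : α → List Unit} {l : α → List β} (hb : NPC.Poly b) (hk : NPC.Poly k)
    (hl : NPC.Poly l) : NPC.Poly (fun a => pieces (b a) (k a).length (l a)) := by
  refine NPC.Poly.map (F := fun a i => piece (b a) (l a) i) (NPC.Poly.range_length hk) ?_
  exact poly_take (poly_drop (hl.comp (NPC.Poly.fst NPC.Poly.id))
    (NPC.Poly.mul (NPC.Poly.snd NPC.Poly.id) (hb.comp (NPC.Poly.fst NPC.Poly.id)))) (hb.comp (NPC.Poly.fst NPC.Poly.id))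

theorem poly_uncov {h : α → Dnf} {z : α → Ex} (hh : NPC.Poly h) (hz : NPC.Poly z) :
    NPC.Poly (fun a => uncov (h a) (z a)) :=
  NPC.Poly.and (NPC.Poly.snd hz) (NPC.Poly.not (poly_dnfSat hh (NPC.Poly.fst hz)))

theorem poly_fst1 {h : α → Dnf} {bl : α → List Ex} (hh : NPC.Poly h) (hb : NPC.Poly bl) :
    NPC.Poly (fun a => fst1 (h a) (bl a)) :=
  poly_take (NPC.Poly.filter (p := fun a z => uncov (h a) z) hb
    (poly_uncov (hh.comp (NPC.Poly.fst NPC.Poly.id)) (NPC.Poly.snd NPC.Poly.id))) (NPC.Poly.const 1)

/-- the number `r` in unary -/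
theorem poly_rr (A : ℕ) {l : α → List β} (hl : NPC.Poly l) :
    UPoly (fun a => rr A (l a).length) := by
  unfold rr
  exact UPoly.mul (UPoly.const (2 * A))
    (UPoly.add (UPoly.length (NPC.Poly.natBits (NPC.Poly.length hl))) (UPoly.const 2))

theorem poly_cand {t r : α → List Unit} {h : α → Dnf} {tup : α → List Ex} (ht : NPC.Poly t)
    (hr : NPC.Poly r) (hh : NPC.Poly h) (htup : NPC.Poly tup) :
    NPC.Poly (fun a => cand (t a).length (r a).length (h a) (tup a)) := by
  have h1 : NPC.Poly (fun a => (pieces (t a).length (r a).length (tup a)).flatMap (fst1 (h a))) :=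
    NPC.Poly.flatMap (F := fun a bl => fst1 (h a) bl) (poly_pieces (NPC.Poly.length ht) hr htup)
      (poly_fst1 (hh.comp (NPC.Poly.fst NPC.Poly.id)) (NPC.Poly.snd NPC.Poly.id))
  unfold cand
  refine NPC.Poly.ite (NPC.Poly.decide_eq (NPC.Poly.length h1) (NPC.Poly.length hr)) ?_ (NPC.Poly.const [])
  exact poly_subs ht (poly_common (NPC.Poly.map (F := fun _ z => z.1) h1
    (NPC.Poly.fst (NPC.Poly.snd NPC.Poly.id))))

theorem poly_consis {test : α → List Ex} {c : α → Term} (ht : NPC.Poly test) (hc : NPC.Poly c) :
    NPC.Poly (fun a => consis (test a) (c a)) :=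
  NPC.Poly.all (p := fun a (z : Ex) => z.2 || !termSat z.1 (c a)) ht
    (NPC.Poly.or (NPC.Poly.snd (NPC.Poly.snd NPC.Poly.id))
      (NPC.Poly.not (poly_termSat (NPC.Poly.fst (NPC.Poly.snd NPC.Poly.id)) (hc.comp (NPC.Poly.fst NPC.Poly.id)))))

theorem poly_stage {t r : α → List Unit} {test : α → List Ex} {h : α → Dnf} {st : α → List Ex}
    (ht : NPC.Poly t) (hr : NPC.Poly r) (htest : NPC.Poly test) (hh : NPC.Poly h) (hst : NPC.Poly st) :
    NPC.Poly (fun a => stage (t a).length (r a).length (test a) (h a) (st a)) := by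
  unfold stage
  refine NPC.Poly.append hh ?_
  refine NPC.Poly.filter (p := fun a c => consis (test a) c) ?_
    (poly_consis (htest.comp (NPC.Poly.fst NPC.Poly.id)) (NPC.Poly.snd NPC.Poly.id))
  refine NPC.Poly.flatMap (F := fun a tup => cand (t a).length (r a).length (h a) tup)
    (poly_pieces (NPC.Poly.mul (NPC.Poly.length hr) (NPC.Poly.length ht)) ht hst) ?_
  exact poly_cand (ht.comp (NPC.Poly.fst NPC.Poly.id)) (hr.comp (NPC.Poly.fst NPC.Poly.id))
    (hh.comp (NPC.Poly.fst NPC.Poly.id)) (NPC.Poly.snd NPC.Poly.id)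

end

theorem sz_lits_le (n : ℕ) : sz (lits n) ≤ 2 * n * (4 * n + 6) + 1 := by
  have h1 : (lits n).length = 2 * n := by
    unfold lits
    rw [List.length_flatMap]
    simp
    ring
  have h2 := sz_le_length_mul (lits n) (4 * n + 5) (by
    rintro ⟨i, b⟩ hl
    rw [mem_lits] at hl
    have h3 := sz_nat_le i
    have h4 := NPC.Poly.size_le_self i
    have h5 := sz_bool_le b
    have h6 : i < n := hl
    rw [sz_pair]
    omega)
  rw [h1] at h2
  exact h2

theorem sz_filter_le {β : Type} [TEnc β] (p : β → Bool) (l : List β) : sz (l.filter p) ≤ sz l := by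
  induction l with
  | nil => simp
  | cons a l ih =>
    rw [List.filter_cons]
    split_ifs
    · rw [sz_list_cons, sz_list_cons]; omega
    · rw [sz_list_cons]; omega

/-- The candidates have bounded size. -/
theorem cand_sz {t r : ℕ} {h : Dnf} {tup : List Ex} {M : ℕ} (hM : ∀ z ∈ tup, z.1.length ≤ M) :
    ∀ c ∈ cand t r h tup, sz c ≤ 2 * M * (4 * M + 6) + 2 := by
  intro c hc
  unfold cand at hc
  split_ifs at hc
  · have h1 := subs_sz t _ [[]] 1 (by
      intro c hc
      rw [List.mem_singleton] at hc
      subst hc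
      simp) c hc
    refine h1.trans ?_
    have h2 : sz (common (((pieces t r tup).flatMap (fst1 h)).map Prod.fst)) ≤
        2 * M * (4 * M + 6) + 1 := by
      unfold common
      refine (sz_filter_le _ _).trans ((sz_lits_le _).trans ?_)
      have h3 : ((((pieces t r tup).flatMap (fst1 h)).map Prod.fst).headD []).length ≤ M := by
        rcases hys : ((pieces t r tup).flatMap (fst1 h)).map Prod.fst with _ | ⟨y, ys⟩
        · simp
        · rw [List.headD_cons]
          have h3 : y ∈ ((pieces t r tup).flatMap (fst1 h)).map Prod.fst := by rw [hys]; simp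
          rw [List.mem_map] at h3
          obtain ⟨z, hz, rfl⟩ := h3
          rw [List.mem_flatMap] at hz
          obtain ⟨bl, hbl, hz⟩ := hz
          unfold fst1 at hz
          have h4 : z ∈ bl := List.mem_of_mem_filter (List.mem_of_mem_take hz)
          exact hM z (mem_pieces hbl z h4)
      have h4 := Nat.mul_le_mul (Nat.mul_le_mul_left 2 h3)
        (Nat.add_le_add_right (Nat.mul_le_mul_left 4 h3) 6)
      omega
    omega
  · simp at hc

theorem stage_sz {t r : ℕ} {test st : List Ex} {h : Dnf} {M : ℕ} (ht : 1 ≤ t)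
    (hM : ∀ z ∈ st, z.1.length ≤ M) :
    sz (stage t r test h st) ≤ sz h + t * t * (2 * M * (4 * M + 6) + 3) := by
  unfold stage
  have h1 := sz_append h (((pieces (r * t) t st).flatMap (cand t r h)).filter (consis test))
  have h2 : ∀ c ∈ ((pieces (r * t) t st).flatMap (cand t r h)).filter (consis test),
      sz c ≤ 2 * M * (4 * M + 6) + 2 := by
    intro c hc
    rw [List.mem_filter, List.mem_flatMap] at hc
    obtain ⟨⟨tup, htup, hc⟩, _⟩ := hc
    exact cand_sz (fun z hz => hM z (mem_pieces htup z hz)) c hc
  have h3 := sz_le_length_mul _ _ h2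
  have h4 : (((pieces (r * t) t st).flatMap (cand t r h)).filter (consis test)).length ≤
      t * t := by
    have := stage_length t r ht test h st
    unfold stage at this
    rw [List.length_append] at this
    omega
  have h5 := Nat.mul_le_mul_right (2 * M * (4 * M + 6) + 2 + 1) h4
  have e : 2 * M * (4 * M + 6) + 2 + 1 = 2 * M * (4 * M + 6) + 3 := rfl
  rw [e] at h3 h5
  omega

theorem foldl_sz {t r : ℕ} {test : List Ex} {M : ℕ} (ht : 1 ≤ t) : ∀ (sts : List (List Ex))
    (h : Dnf), (∀ st ∈ sts, ∀ z ∈ st, z.1.length ≤ M) →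
    sz (sts.foldl (stage t r test) h) ≤
      sz h + sts.length * (t * t * (2 * M * (4 * M + 6) + 3))
  | [], h, _ => by simp
  | st :: sts, h, hM => by
    rw [List.foldl_cons]
    refine (foldl_sz ht sts _ fun st' h' => hM st' (List.mem_cons_of_mem _ h')).trans ?_
    have := stage_sz (r := r) (test := test) (h := h) ht (hM st (by simp))
    rw [List.length_cons]
    have e : (sts.length + 1) * (t * t * (2 * M * (4 * M + 6) + 3)) =
        sts.length * (t * t * (2 * M * (4 * M + 6) + 3)) + t * t * (2 * M * (4 * M + 6) + 3) := by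
      ring
    omega

/-- The learner is a polynomial-time function. -/
theorem poly_learn (A : ℕ) : NPC.Poly (learn A) := by
  have ht : NPC.Poly (fun z : List Unit × List Ex => z.1) := NPC.Poly.fst NPC.Poly.id
  have hS : NPC.Poly (fun z : List Unit × List Ex => z.2) := NPC.Poly.snd NPC.Poly.id
  have htl : NPC.Poly (fun z : List Unit × List Ex => z.1.length) := NPC.Poly.length ht
  have ht5 : NPC.Poly (fun z : List Unit × List Ex => z.1.length ^ 5) :=
    (NPC.Poly.mul (NPC.Poly.mul (NPC.Poly.mul (NPC.Poly.mul htl htl) htl) htl) htl).congr fun z => by ring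
  have hhead : NPC.Poly (fun z : List Unit × List Ex => (z.2.headD ([], false)).1) :=
    NPC.Poly.fst ((NPC.Poly.getD (d := fun _ => (([], false) : Ex)) hS (NPC.Poly.const 0)
      (NPC.Poly.const _)).congr fun a => (headD_eq _ _).symm)
  have hr : NPC.Poly (fun z : List Unit × List Ex => List.replicate (rr A (dim z.2)) ()) :=
    poly_rr A hhead
  have hrl : NPC.Poly (fun z : List Unit × List Ex => rr A (dim z.2)) :=
    (NPC.Poly.length hr).congr fun z => by simp
  have htest : NPC.Poly (fun z : List Unit × List Ex => z.2.take (z.1.length ^ 5)) :=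
    poly_take hS ht5
  have hrest : NPC.Poly (fun z : List Unit × List Ex => z.2.drop (z.1.length ^ 5)) :=
    poly_drop hS ht5
  have hsts : NPC.Poly (fun z : List Unit × List Ex =>
      pieces (z.1.length * (rr A (dim z.2) * z.1.length)) z.1.length
        (z.2.drop (z.1.length ^ 5))) :=
    poly_pieces (NPC.Poly.mul htl (NPC.Poly.mul hrl htl)) ht hrest
  have hstep : NPC.Poly (fun p : (List Unit × List Ex) × Dnf × List Ex =>
      stage p.1.1.length (rr A (dim p.1.2)) (p.1.2.take (p.1.1.length ^ 5)) p.2.1 p.2.2) :=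
    (poly_stage (t := fun p : (List Unit × List Ex) × Dnf × List Ex => p.1.1)
      (r := fun p => List.replicate (rr A (dim p.1.2)) ())
      (test := fun p => p.1.2.take (p.1.1.length ^ 5)) (h := fun p => p.2.1)
      (st := fun p => p.2.2) (NPC.Poly.fst (NPC.Poly.fst NPC.Poly.id)) (hr.comp (NPC.Poly.fst NPC.Poly.id))
      (htest.comp (NPC.Poly.fst NPC.Poly.id)) (NPC.Poly.fst (NPC.Poly.snd NPC.Poly.id))
      (NPC.Poly.snd (NPC.Poly.snd NPC.Poly.id))).congr fun p => by simp
  have hmain := NPC.Poly.foldl (s := fun _ : List Unit × List Ex => ([] : Dnf))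
    (F := fun z h st => stage z.1.length (rr A (dim z.2)) (z.2.take (z.1.length ^ 5)) h st)
    hsts (NPC.Poly.const []) hstep
    (Polynomial.C 1 + Polynomial.X * (Polynomial.X * Polynomial.X *
      (Polynomial.C 2 * Polynomial.X * (Polynomial.C 4 * Polynomial.X + Polynomial.C 6) +
        Polynomial.C 3))) (by
    rintro ⟨t, S⟩ k hk
    have hszt := length_lt_sz t
    have hszS : sz (t, S) = sz t + sz S + 1 := sz_pair _ _
    rcases Nat.eq_zero_or_pos t.length with h0 | h0
    · have e : pieces (t.length * (rr A (dim S) * t.length)) t.length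
          (S.drop (t.length ^ 5)) = [] := by
        rw [h0]; rfl
      simp only [e, List.take_nil, List.foldl_nil, sz_list_nil]
      simp
    · have h1 := foldl_sz (t := t.length) (r := rr A (dim S)) (test := S.take (t.length ^ 5))
        (M := sz (t, S)) h0 ((pieces (t.length * (rr A (dim S) * t.length)) t.length
          (S.drop (t.length ^ 5))).take k) [] (by
          intro st hst z hz
          have h2 : z ∈ S := List.mem_of_mem_drop (mem_pieces (List.mem_of_mem_take hst) z hz)
          have h3 := sz_le_of_mem h2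
          have h4 := length_lt_sz z.1
          have h5 : sz z = sz z.1 + sz z.2 + 1 := by
            obtain ⟨x, b⟩ := z
            exact sz_pair _ _
          omega)
      refine h1.trans ?_
      have h2 : ((pieces (t.length * (rr A (dim S) * t.length)) t.length
          (S.drop (t.length ^ 5))).take k).length ≤ sz (t, S) := by
        rw [List.length_take]
        have : (pieces (t.length * (rr A (dim S) * t.length)) t.length
          (S.drop (t.length ^ 5))).length = t.length := by
          unfold pieces
          simp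
        omega
      have h3 : t.length * t.length ≤ sz (t, S) * sz (t, S) :=
        Nat.mul_le_mul (by omega) (by omega)
      simp only [Polynomial.eval_add, Polynomial.eval_mul, Polynomial.eval_C, Polynomial.eval_X,
        sz_list_nil]
      have h4 := Nat.mul_le_mul h2 (Nat.mul_le_mul_right
        (2 * sz (t, S) * (4 * sz (t, S) + 6) + 3) h3)
      omega)
  exact hmain.congr fun z => rfl

end Pool.Agent.N587.DL
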