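import Pool.Agent.N587.DL.Final
import Pool.Agent.N587.DL.TM

/-!
# Sums over samples
-/

set_option autoImplicit false

namespace Pool.Agent.N587.DL

open Finset

theorem exL_eq_sum {n : ℕ} (F : Dnf) (w : (Fin n → Bool) → ℝ) : ∀ (m : ℕ) (G : List Ex → ℝ),
    exL (Ew F w) m G = ∑ x : Fin m → Fin n → Bool,
      (∏ j, w (x j)) * G (List.ofFn fun j => lab F (x j))
  | 0, G => by
    rw [exL_zero, Fintype.sum_eq_single (fun j => j.elim0)]
    · simp
    · intro x hx
      exact absurd (Subsingleton.elim _ _) hx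
  | m + 1, G => by
    rw [exL_succ]
    unfold Ew
    rw [← (Fin.consEquiv fun _ : Fin (m + 1) => Fin n → Bool).sum_comp, Fintype.sum_prod_type]
    refine sum_congr rfl fun y _ => ?_
    have ih := exL_eq_sum F w m fun l => G (lab F y :: l)
    unfold Ew at ih
    beta_reduce
    rw [ih, mul_sum]
    refine sum_congr rfl fun x _ => ?_
    rw [Fin.prod_univ_succ, List.ofFn_succ]
    simp only [Fin.consEquiv_apply, Fin.cons_zero, Fin.cons_succ]
    ring

theorem dim_ofFn {n m : ℕ} (F : Dnf) (hm : 1 ≤ m) (x : Fin m → Fin n → Bool) :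
    dim (List.ofFn fun j => lab F (x j)) = n := by
  obtain ⟨m', rfl⟩ : ∃ m', m = m' + 1 := ⟨m - 1, by omega⟩
  unfold dim
  rw [List.ofFn_succ, List.headD_cons]
  simp [lab]

theorem learn_sum {n s K e d a t m : ℕ} (hn : 1 ≤ n) (hs1 : 1 ≤ s) (hK : 1 ≤ K) (he : 1 ≤ e)
    (hd : 1 ≤ d) (ha : 2 ≤ a) (ht : QQ n s K e d ^ (8 * a + 10) ≤ t) (hm : t ^ 6 ≤ m)
    (F : Dnf) (hs : F.length ≤ s) (w : (Fin n → Bool) → ℝ)
    (hw : ∀ x, 0 ≤ w x) (hw1 : ∑ x, w x = 1) (p : Fin n → ℝ)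
    (hp : ∀ i, 1 / (a : ℝ) ≤ p i ∧ p i ≤ 1 - 1 / a)
    (hwK : ∀ x, w x ≤ K * ∏ i, pr (p i) (x i)) :
    ∑ x : Fin m → Fin n → Bool, (if 1 / (e : ℝ) < err F w (learn a
      (List.replicate t (), List.ofFn fun j => lab F (x j))) then ∏ j, w (x j) else 0) ≤
      1 / d := by
  have h1 := learn_main hn hs1 hK he hd ha ht hm F hs w hw hw1 p hp hwK
  rw [exL_eq_sum] at h1
  refine le_trans (le_of_eq ?_) h1
  have hQ1 : 1 ≤ t := by
    refine le_trans ?_ ht
    exact Nat.one_le_pow _ _ (by unfold QQ; positivity)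
  have hm1 : 1 ≤ m := le_trans (Nat.one_le_pow _ _ hQ1) hm
  refine sum_congr rfl fun x _ => ?_
  have h2 : learn a (List.replicate t (), List.ofFn fun j => lab F (x j)) =
      learnT (rr a n) t (List.ofFn fun j => lab F (x j)) := by
    unfold learn
    have h3 : dim (List.ofFn fun j => lab F (x j)) = n := dim_ofFn F hm1 x
    simp only [h3, List.length_replicate]
  rw [h2]
  split_ifs <;> simp

end Pool.Agent.N587.DL
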