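import Pool.Agent.NPC.Num
import Pool.Agent.NPC.Classes

/-!
# Learning DNF formulas: the learner

A point of the cube is a list of bits, an example is a point with a label. A literal `(i, b)` demands
that the coordinate `i` is `b`; a term is a list of literals, a DNF formula a list of terms.
-/

set_option autoImplicit false

namespace Pool.Agent.N587.DL

/-- A literal: a coordinate and the value it must have. -/
abbrev Lit : Type := ℕ × Bool

/-- A term: a conjunction of literals. -/
abbrev Term : Type := List Lit

/-- A DNF formula: a disjunction of terms. -/
abbrev Dnf : Type := List Term

/-- A labelled example. -/
abbrev Ex : Type := List Bool × Bool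

/-- The literal `l` is true at the point `x`. -/
def litSat (x : List Bool) (l : Lit) : Bool := decide (x[l.1]? = some l.2)

/-- The term `t` is true at the point `x`. -/
def termSat (x : List Bool) (t : Term) : Bool := t.all (litSat x)

/-- The value of the formula `F` at the point `x`. -/
def dnfSat (F : Dnf) (x : List Bool) : Bool := F.any (termSat x)

/-- All literals in `n` variables. -/
def lits (n : ℕ) : Term := (List.range n).flatMap fun i => [(i, false), (i, true)]

/-- The literals which are true at all the points `ys` (of the same length). -/
def common (ys : List (List Bool)) : Term :=
  (lits (ys.headD []).length).filter fun l => ys.all fun y => litSat y l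

/-- One step of the enumeration of the subsets. -/
def subStep (W : ℕ) (acc : List Term) (l : Lit) : List Term :=
  if (acc ++ acc.map (fun t => l :: t)).length ≤ W then acc ++ acc.map (fun t => l :: t) else []

/-- All subsets of the set `C` of literals, if there are at most `W`. -/
def subs (W : ℕ) (C : Term) : List Term := C.foldl (subStep W) [[]]

/-- The `i`-th piece of length `b` of a list. -/
def piece {α : Type} (b : ℕ) (l : List α) (i : ℕ) : List α := (l.drop (i * b)).take b

/-- The first `k` pieces of length `b` of a list. -/
def pieces {α : Type} (b k : ℕ) (l : List α) : List (List α) := (List.range k).map (piece b l)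

/-- The example is positive and not covered by the formula `h`. -/
def uncov (h : Dnf) (z : Ex) : Bool := z.2 && !dnfSat h z.1

/-- The first uncovered positive example of a block (as a list with at most one element). -/
def fst1 (h : Dnf) (bl : List Ex) : List Ex := (bl.filter (uncov h)).take 1

/-- The terms which are proposed by a tuple of `r` blocks of `t` examples: the first uncovered
positive examples of the blocks are taken, and all sets of at most `log t` literals that are true at
all of them. -/
def cand (t r : ℕ) (h : Dnf) (tup : List Ex) : List Term :=
  if ((pieces t r tup).flatMap (fst1 h)).length = r then
    subs t (common (((pieces t r tup).flatMap (fst1 h)).map Prod.fst))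
  else []

/-- The term `c` is true at no negative example. -/
def consis (test : List Ex) (c : Term) : Bool := test.all fun z => z.2 || !termSat z.1 c

/-- One stage: the consistent terms proposed by `t` tuples are added. -/
def stage (t r : ℕ) (test : List Ex) (h : Dnf) (st : List Ex) : Dnf :=
  h ++ ((pieces (r * t) t st).flatMap (cand t r h)).filter (consis test)

/-- The length of the tuples, for `n` variables. -/
def rr (a n : ℕ) : ℕ := 2 * a * (n.bits.length + 2)

/-- The dimension of the examples. -/
def dim (S : List Ex) : ℕ := (S.headD ([], false)).1.length

/-- The learner, with the time parameter `t`. -/
def learnT (r t : ℕ) (S : List Ex) : Dnf :=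
  (pieces (t * (r * t)) t (S.drop (t ^ 5))).foldl (stage t r (S.take (t ^ 5))) []

/-- The learner: the input is a number `t` in unary and a sample. -/
def learn (a : ℕ) (z : List Unit × List Ex) : Dnf :=
  learnT (rr a (dim z.2)) z.1.length z.2

end Pool.Agent.N587.DL
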