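import Pool.Agent.N587.DL.Main

/-!
# The learner learns: all stages together
-/

set_option autoImplicit false

namespace Pool.Agent.N587.DL

open Finset

theorem foldl_inv {n t r : ℕ} {test : List Ex} : ∀ (sts : List (List Ex)) (h : Dnf),
    (∀ st ∈ sts, ∀ z ∈ st, z.1.length = n) → Inv n test h →
    Inv n test (sts.foldl (stage t r test) h)
  | [], _, _, hh => hh
  | st :: sts, h, hst, hh => by
    rw [List.foldl_cons]
    exact foldl_inv sts _ (fun st' h' => hst st' (List.mem_cons_of_mem _ h'))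
      (hh.stage (hst st (by simp)))

theorem foldl_length {t r : ℕ} (ht : 1 ≤ t) (test : List Ex) : ∀ (sts : List (List Ex)) (h : Dnf),
    (sts.foldl (stage t r test) h).length ≤ h.length + sts.length * (t * t)
  | [], _ => by simp
  | st :: sts, h => by
    rw [List.foldl_cons]
    refine (foldl_length ht test sts _).trans ?_
    have := stage_length t r ht test h st
    rw [List.length_cons]
    nlinarith

theorem learnT_append {t r x : ℕ} (test body ex : List Ex) (h1 : test.length = t ^ 5)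
    (h2 : body.length = t * (t * (r * t))) (_h3 : ex.length = x) :
    learnT r t (test ++ (body ++ ex)) =
      (pieces (t * (r * t)) t body).foldl (stage t r test) [] := by
  unfold learnT
  rw [List.take_left' h1, List.drop_left' h1, pieces_append _ _ _ _ (by omega)]

theorem learn_core {n t a s K e m : ℕ} (r : ℕ) (F : Dnf) (w : (Fin n → Bool) → ℝ)
    (hw : ∀ x, 0 ≤ w x) (hw1 : ∑ x, w x = 1) (hr : 1 ≤ r) (hs : F.length ≤ s) (hs1 : 1 ≤ s)
    (ha : 2 ≤ a) (he : 1 ≤ e) (p : Fin n → ℝ)
    (hp : ∀ i, 1 / (a : ℝ) ≤ p i ∧ p i ≤ 1 - 1 / a) (hK : 1 ≤ K)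
    (hwK : ∀ x, w x ≤ K * ∏ i, pr (p i) (x i))
    (het : 2 * e ≤ t) (hKt : (2 * e * s * K) ^ (5 * a) ≤ t) (hst : s ≤ t)
    (hrn : 2 * (n : ℝ) * (1 - 1 / (2 * (a : ℝ))) ^ r ≤ 1 / 2)
    (hm : t ^ 5 + t * (t * (r * t)) ≤ m) :
    exL (Ew F w) m (fun S => if 1 / (e : ℝ) < err F w (learnT r t S) then 1 else 0) ≤
      4 ^ n * Real.exp (-((t : ℝ) ^ 2 / (2 * e))) +
        s * Real.exp (-((1 / (2 * (s : ℝ))) ^ r / 2 * t)) := by
  classical
  have hE := Ew_pos F w hw
  have hE1 := Ew_one F w hw1
  have her : (1 : ℝ) ≤ e := by exact_mod_cast he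
  have ht1 : 1 ≤ t := by omega
  have htr : (1 : ℝ) ≤ t := by exact_mod_cast ht1
  obtain ⟨x, hx⟩ := Nat.exists_eq_add_of_le hm
  obtain ⟨B, hB⟩ : ∃ B, B = t * (r * t) := ⟨_, rfl⟩
  set ε : ℝ := 1 / (2 * e * t ^ 3) with hε
  set η : ℝ := Real.exp (-((1 / (2 * (s : ℝ))) ^ r / 2 * t)) with hη
  have hS : ∀ G H : Ex → ℝ, (∀ z, (∃ x : Fin n → Bool, z = lab F x) → G z ≤ H z) →
      Ew F w G ≤ Ew F w H := fun G H hGH => Ew_mono F w hw fun x => hGH _ ⟨x, rfl⟩
  have em : m = t ^ 5 + (t * B + x) := by rw [hx, hB]; ring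
  rw [em, exL_add]
  -- pointwise bound
  have key : exL (Ew F w) (t ^ 5) (fun test => exL (Ew F w) (t * B + x) fun l' =>
      if 1 / (e : ℝ) < err F w (learnT r t (test ++ l')) then 1 else 0) ≤
      exL (Ew F w) (t ^ 5) (fun test => missed F w ε test + s * η) := by
    refine exL_monoS hS (t ^ 5) fun test htl hts => ?_
    rw [exL_add]
    have h1 : exL (Ew F w) (t * B) (fun body => exL (Ew F w) x fun ex =>
        if 1 / (e : ℝ) < err F w (learnT r t (test ++ (body ++ ex))) then 1 else 0) ≤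
        exL (Ew F w) (t * B) (fun body => missed F w ε test +
          (if 1 / (2 * (e : ℝ)) ≤ um F w ((pieces B t body).foldl (stage t r test) [])
            then 1 else 0)) := by
      refine exL_monoS hS (t * B) fun body hbl hbs => ?_
      have h2 : exL (Ew F w) x (fun ex =>
          if 1 / (e : ℝ) < err F w (learnT r t (test ++ (body ++ ex))) then 1 else 0) =
          exL (Ew F w) x (fun _ =>
          if 1 / (e : ℝ) < err F w ((pieces B t body).foldl (stage t r test) []) then 1 else 0) := by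
        refine exL_congr x fun ex hex => ?_
        rw [learnT_append test body ex htl (by rw [hbl, hB]) hex, hB]
      rw [h2, exL_const hE hE1]
      have hmn : 0 ≤ missed F w ε test := by unfold missed; split_ifs <;> norm_num
      by_cases hum : 1 / (2 * (e : ℝ)) ≤ um F w ((pieces B t body).foldl (stage t r test) [])
      · rw [if_pos hum]
        split_ifs <;> linarith
      · rw [if_neg hum, add_zero]
        push Not at hum
        by_cases hmis : ∃ c : Term, (∀ l ∈ c, l.1 < n) ∧ consis test c = true ∧ ε < fp F w c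
        · unfold missed
          rw [if_pos hmis]
          split_ifs <;> norm_num
        · push Not at hmis
          rw [if_neg]
          · exact hmn
          rw [not_lt]
          refine (err_le F w hw _).trans ?_
          have hinv : Inv n test ((pieces B t body).foldl (stage t r test) []) := by
            refine foldl_inv _ _ (fun st hst z hz => ?_) (fun c hc => by simp at hc)
            obtain ⟨y, rfl⟩ := hbs z (mem_pieces hst z hz)
            simp [lab]
          have hlen := foldl_length (r := r) ht1 test (pieces B t body) []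
          have h3 := fp_dnf F w hw ((pieces B t body).foldl (stage t r test) []) ε
            (fun c hc => hmis c (hinv c hc).1 (hinv c hc).2)
          have h4 : (((pieces B t body).foldl (stage t r test) []).length : ℝ) ≤ (t : ℝ) ^ 3 := by
            have h5 : ((pieces B t body).foldl (stage t r test) []).length ≤ t ^ 3 := by
              refine hlen.trans (le_of_eq ?_)
              unfold pieces
              simp
              ring
            exact_mod_cast h5
          have h5 : (((pieces B t body).foldl (stage t r test) []).length : ℝ) * ε ≤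
              1 / (2 * e) := by
            calc _ ≤ (t : ℝ) ^ 3 * ε := mul_le_mul_of_nonneg_right h4 (by rw [hε]; positivity)
              _ = 1 / (2 * e) := by
                rw [hε]
                have : (t : ℝ) ≠ 0 := by positivity
                field_simp
          have h6 : 1 / (2 * (e : ℝ)) + 1 / (2 * e) = 1 / e := by field_simp; norm_num
          linarith
    refine h1.trans ?_
    rw [(hE.exL _).add, exL_const hE hE1]
    refine add_le_add le_rfl ?_
    rw [exL_pieces B t (fun L => if 1 / (2 * (e : ℝ)) ≤ um F w (L.foldl (stage t r test) [])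
      then 1 else 0)]
    have hchain := chain (hE.exL B) (exL_one hE hE1 B) (stage t r test)
      (fun h => 1 / (2 * (e : ℝ)) ≤ um F w h) (cnt n F) η
      (fun h b hh hcon => hh (hcon.trans (um_stage F w hw test b h)))
      (fun h h0 hcon => by
        have h7 : um F w h ≤ 0 := by
          have hall : ∀ T ∈ F, Cap n h T := by
            intro T hT
            by_contra hcap
            have : 0 < cnt n F h := by
              unfold cnt
              rw [List.countP_pos_iff]
              exact ⟨T, hT, by simpa using hcap⟩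
            omega
          unfold um Ew
          refine le_of_eq (sum_eq_zero fun y _ => ?_)
          have h8 : uncov h (lab F y) = false := by
            unfold uncov lab
            simp only
            by_cases hF : dnfSat F (List.ofFn y) = true
            · have hF' := hF
              unfold dnfSat at hF'
              rw [List.any_eq_true] at hF'
              obtain ⟨T, hT, hTy⟩ := hF'
              rw [hall T hT y hTy]
              simp
            · rw [Bool.not_eq_true] at hF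
              rw [hF]
              simp
          simp [h8]
        have h9 : (0 : ℝ) < 1 / (2 * e) := by positivity
        linarith)
      (Real.exp_pos _).le
      (fun h hh => by
        have := one_stage (t := t) (r := r) (a := a) (s := s) (K := K) (e := e) F h w hw hw1 hr
          hs hs1 ha he p hp hK hwK hh het hKt hrn test hts
        rw [hB]
        exact this) t [] (by
          refine le_trans ?_ (hs.trans hst)
          unfold cnt
          exact List.countP_le_length)
    refine hchain.trans ?_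
    refine mul_le_mul_of_nonneg_right ?_ (Real.exp_pos _).le
    have : cnt n F [] ≤ s := by
      refine le_trans ?_ hs
      unfold cnt
      exact List.countP_le_length
    exact_mod_cast this
  refine key.trans ?_
  rw [(hE.exL _).add, exL_const hE hE1]
  refine add_le_add ?_ le_rfl
  refine (missed_prob F w hw hw1 ε (t ^ 5)).trans (le_of_eq ?_)
  congr 3
  rw [hε]
  push_cast
  have : (t : ℝ) ≠ 0 := by positivity
  field_simp

/-- The base of the time bound. -/
def QQ (n s K e d : ℕ) : ℕ := (2 * n) ^ (Nat.log 2 s + 1) * s * K * e * d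

theorem learn_main {n s K e d a t m : ℕ} (hn : 1 ≤ n) (hs1 : 1 ≤ s) (hK : 1 ≤ K) (he : 1 ≤ e)
    (hd : 1 ≤ d) (ha : 2 ≤ a) (ht : QQ n s K e d ^ (8 * a + 10) ≤ t) (hm : t ^ 6 ≤ m)
    (F : Dnf) (hs : F.length ≤ s) (w : (Fin n → Bool) → ℝ)
    (hw : ∀ x, 0 ≤ w x) (hw1 : ∑ x, w x = 1) (p : Fin n → ℝ)
    (hp : ∀ i, 1 / (a : ℝ) ≤ p i ∧ p i ≤ 1 - 1 / a)
    (hwK : ∀ x, w x ≤ K * ∏ i, pr (p i) (x i)) :
    exL (Ew F w) m (fun S => if 1 / (e : ℝ) < err F w (learnT (rr a n) t S) then 1 else 0) ≤
      1 / d := by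
  obtain ⟨L, hL⟩ : ∃ L, L = Nat.log 2 s := ⟨_, rfl⟩
  obtain ⟨P, hP⟩ : ∃ P, P = (2 * n) ^ (L + 1) := ⟨_, rfl⟩
  obtain ⟨Q, hQ⟩ : ∃ Q, Q = QQ n s K e d := ⟨_, rfl⟩
  have hQP : Q = P * s * K * e * d := by rw [hQ, hP, hL]; rfl
  rw [← hQ] at ht
  have hP2 : 2 * n ≤ P := by
    rw [hP]
    calc 2 * n = (2 * n) ^ 1 := (pow_one _).symm
      _ ≤ (2 * n) ^ (L + 1) := Nat.pow_le_pow_right (by omega) (by omega)
  have hP1 : 1 ≤ P := by omega
  have hPQ : P ≤ Q := by
    rw [hQP]
    have h1 : 1 ≤ s * K * e * d := Nat.one_le_iff_ne_zero.2 (by positivity)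
    calc P = P * 1 := (mul_one _).symm
      _ ≤ P * (s * K * e * d) := Nat.mul_le_mul_left _ h1
      _ = P * s * K * e * d := by ring
  have hQ2 : 2 ≤ Q := by omega
  have h2eskQ : 2 * e * s * K ≤ Q := by
    rw [hQP]
    have h1 : 2 * (s * K * e * 1) ≤ P * (s * K * e * d) :=
      Nat.mul_le_mul (by omega) (Nat.mul_le_mul_left _ hd)
    calc 2 * e * s * K = 2 * (s * K * e * 1) := by ring
      _ ≤ P * (s * K * e * d) := h1
      _ = P * s * K * e * d := by ring
  have h2sdQ : 2 * s * d ≤ Q := by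
    rw [hQP]
    have h1 : 2 * (s * d * 1) ≤ P * (s * d * (K * e)) :=
      Nat.mul_le_mul (by omega) (Nat.mul_le_mul_left _ (Nat.one_le_iff_ne_zero.2 (by positivity)))
    calc 2 * s * d = 2 * (s * d * 1) := by ring
      _ ≤ P * (s * d * (K * e)) := h1
      _ = P * s * K * e * d := by ring
  have hsQ : s ≤ Q := by
    have : s * 1 ≤ s * (2 * d) := Nat.mul_le_mul_left _ (by omega)
    nlinarith
  have hdQ : d ≤ Q := by
    have : d * 1 ≤ d * (2 * s) := Nat.mul_le_mul_left _ (by omega)
    nlinarith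
  have h2eQ : 2 * e ≤ Q := by
    refine le_trans ?_ h2eskQ
    have : 2 * e * 1 ≤ 2 * e * (s * K) :=
      Nat.mul_le_mul_left _ (Nat.one_le_iff_ne_zero.2 (by positivity))
    calc 2 * e = 2 * e * 1 := by ring
      _ ≤ 2 * e * (s * K) := this
      _ = 2 * e * s * K := by ring
  have hQt : ∀ j, j ≤ 8 * a + 10 → Q ^ j ≤ t := fun j hj =>
    (Nat.pow_le_pow_right (by omega) hj).trans ht
  have hQ1t : Q ≤ t := by simpa using hQt 1 (by omega)
  -- the size of `n`
  obtain ⟨k, hk⟩ : ∃ k, k = n.bits.length := ⟨_, rfl⟩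
  have hksize : k = n.size := by rw [hk, ← Nat.size_eq_bits_len]
  have hk1 : n < 2 ^ k := by rw [hksize]; exact Nat.lt_size_self n
  have hk2 : 2 ^ k ≤ 2 * n := by
    have h1 : n.size - 1 < n.size := by
      have : 0 < n.size := Nat.size_pos.2 hn
      omega
    have h2 := Nat.lt_size.1 h1
    rw [hksize]
    calc 2 ^ n.size = 2 ^ (n.size - 1 + 1) := by congr 1; omega
      _ = 2 ^ (n.size - 1) * 2 := pow_succ _ _
      _ ≤ n * 2 := Nat.mul_le_mul_right _ h2
      _ = 2 * n := by ring
  have hkn : k ≤ 2 * n := le_trans (Nat.lt_two_pow_self).le hk2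
  have hrr : rr a n = 2 * a * (k + 2) := by rw [hk]; rfl
  have h2s : 2 * s ≤ 2 ^ (L + 2) := by
    have h1 : s < 2 ^ (Nat.log 2 s + 1) := Nat.lt_pow_succ_log_self (by norm_num) s
    rw [hL, show Nat.log 2 s + 2 = (Nat.log 2 s + 1) + 1 by ring, pow_succ]
    omega
  have h2sk : (2 * s) ^ (k + 2) ≤ Q ^ 4 := by
    have h1 : (2 * s) ^ k ≤ Q ^ 2 := by
      calc (2 * s) ^ k ≤ (2 ^ (L + 2)) ^ k := Nat.pow_le_pow_left h2s k
        _ = (2 ^ k) ^ (L + 2) := by rw [← pow_mul, ← pow_mul, mul_comm]
        _ ≤ (2 * n) ^ (L + 2) := Nat.pow_le_pow_left hk2 _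
        _ ≤ (2 * n) ^ ((L + 1) * 2) := Nat.pow_le_pow_right (by omega) (by omega)
        _ = P ^ 2 := by rw [hP, ← pow_mul]
        _ ≤ Q ^ 2 := Nat.pow_le_pow_left hPQ 2
    have h2 : (2 * s) ^ 2 ≤ Q ^ 2 := by
      refine Nat.pow_le_pow_left ?_ 2
      refine le_trans ?_ h2sdQ
      have : 2 * s * 1 ≤ 2 * s * d := Nat.mul_le_mul_left _ hd
      omega
    calc (2 * s) ^ (k + 2) = (2 * s) ^ k * (2 * s) ^ 2 := pow_add _ _ _
      _ ≤ Q ^ 2 * Q ^ 2 := Nat.mul_le_mul h1 h2
      _ = Q ^ 4 := by ring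
  have h2sr : (2 * s) ^ rr a n ≤ Q ^ (8 * a) := by
    rw [hrr]
    calc (2 * s) ^ (2 * a * (k + 2)) = ((2 * s) ^ (k + 2)) ^ (2 * a) := by
          rw [← pow_mul]
          congr 1
          ring
      _ ≤ (Q ^ 4) ^ (2 * a) := Nat.pow_le_pow_left h2sk _
      _ = Q ^ (8 * a) := by rw [← pow_mul]; congr 1; ring
  have hrt : rr a n ≤ t := by
    have h1 : rr a n < 2 ^ rr a n := Nat.lt_two_pow_self
    have h2 : 2 ^ rr a n ≤ (2 * s) ^ rr a n := Nat.pow_le_pow_left (by omega) _
    exact (h1.le.trans h2).trans (h2sr.trans (hQt _ (by omega)))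
  have hr1 : 1 ≤ rr a n := by
    rw [hrr]
    exact Nat.one_le_iff_ne_zero.2 (by positivity)
  -- reals
  have har : (2 : ℝ) ≤ a := by exact_mod_cast ha
  have hnr : (1 : ℝ) ≤ n := by exact_mod_cast hn
  have hsr : (1 : ℝ) ≤ s := by exact_mod_cast hs1
  have hdr : (1 : ℝ) ≤ d := by exact_mod_cast hd
  have her : (1 : ℝ) ≤ e := by exact_mod_cast he
  have hQr : (2 : ℝ) ≤ Q := by exact_mod_cast hQ2
  have htr : (Q : ℝ) ≤ t := by exact_mod_cast hQ1t
  have hrn : 2 * (n : ℝ) * (1 - 1 / (2 * (a : ℝ))) ^ rr a n ≤ 1 / 2 := by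
    have h1 : (1 - 1 / (2 * (a : ℝ))) ^ rr a n ≤ Real.exp (-((k : ℝ) + 2)) := by
      have h2 : 0 ≤ 1 - 1 / (2 * (a : ℝ)) := by
        have : 1 / (2 * (a : ℝ)) ≤ 1 := by
          rw [div_le_one (by positivity)]
          linarith
        linarith
      calc (1 - 1 / (2 * (a : ℝ))) ^ rr a n ≤ (Real.exp (-(1 / (2 * (a : ℝ))))) ^ rr a n := by
            refine pow_le_pow_left₀ h2 ?_ _
            have := Real.add_one_le_exp (-(1 / (2 * (a : ℝ))))
            linarith
        _ = Real.exp (-((k : ℝ) + 2)) := by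
            rw [← Real.exp_nat_mul, hrr]
            congr 1
            push_cast
            field_simp
    have h3 : Real.exp (-((k : ℝ) + 2)) ≤ 1 / (4 * n) := by
      rw [Real.exp_neg, inv_eq_one_div]
      apply one_div_le_one_div_of_le (by positivity)
      have h4 : (2 : ℝ) ≤ Real.exp 1 := by
        have := Real.add_one_le_exp (1 : ℝ)
        linarith
      calc (4 : ℝ) * n ≤ 4 * 2 ^ k := by
            have : (n : ℝ) ≤ 2 ^ k := by exact_mod_cast hk1.le
            linarith
        _ = 2 ^ (k + 2) := by ring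
        _ ≤ (Real.exp 1) ^ (k + 2) := pow_le_pow_left₀ (by norm_num) h4 _
        _ = Real.exp ((k : ℝ) + 2) := by
            rw [← Real.exp_nat_mul]
            congr 1
            push_cast
            ring
    calc 2 * (n : ℝ) * (1 - 1 / (2 * (a : ℝ))) ^ rr a n ≤ 2 * (n : ℝ) * (1 / (4 * n)) :=
          mul_le_mul_of_nonneg_left (h1.trans h3) (by positivity)
      _ = 1 / 2 := by field_simp; norm_num
  have hm' : t ^ 5 + t * (t * (rr a n * t)) ≤ m := by
    refine le_trans ?_ hm
    have ht2 : 2 ≤ t := by omega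
    have h1 : t * (t * (rr a n * t)) ≤ t * (t * (t * t)) := by gcongr
    have h2 : t * (t * (t * t)) ≤ t ^ 5 := by
      calc t * (t * (t * t)) = t ^ 4 * 1 := by ring
        _ ≤ t ^ 4 * t := Nat.mul_le_mul_left _ (by omega)
        _ = t ^ 5 := by ring
    calc t ^ 5 + t * (t * (rr a n * t)) ≤ t ^ 5 + t ^ 5 := by omega
      _ = t ^ 5 * 2 := by ring
      _ ≤ t ^ 5 * t := Nat.mul_le_mul_left _ ht2
      _ = t ^ 6 := by ring
  have hcore := learn_core (t := t) (m := m) (a := a) (s := s) (K := K) (e := e) (rr a n) F w hw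
    hw1 hr1 hs hs1 ha he p hp hK hwK (by omega)
    ((Nat.pow_le_pow_left h2eskQ _).trans (hQt _ (by omega))) (by omega) hrn hm'
  refine hcore.trans ?_
  -- the test sample
  have ht10 : ((Q : ℝ)) ^ 4 ≤ t := by exact_mod_cast hQt 4 (by omega)
  have hA : 4 ^ n * Real.exp (-((t : ℝ) ^ 2 / (2 * e))) ≤ 1 / (2 * d) := by
    have h1 : (t : ℝ) ≤ (t : ℝ) ^ 2 / (2 * e) := by
      rw [le_div_iff₀ (by positivity)]
      have h2 : 2 * (e : ℝ) ≤ t := by
        have : 2 * (e : ℝ) ≤ Q := by exact_mod_cast h2eQ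
        linarith
      nlinarith
    have h2 : 2 * (n : ℝ) + 2 * d ≤ t := by
      have h3 : 2 * (n : ℝ) ≤ Q := by exact_mod_cast hP2.trans hPQ
      have h4 : (d : ℝ) ≤ Q := by exact_mod_cast hdQ
      have h5 : 3 * (Q : ℝ) ≤ Q ^ 4 := by
        have h6 : (Q : ℝ) ^ 4 = Q * Q ^ 3 := by ring
        have h7 : (8 : ℝ) ≤ Q ^ 3 := by
          have := pow_le_pow_left₀ (by norm_num : (0 : ℝ) ≤ 2) hQr 3
          norm_num at this
          exact this
        rw [h6]
        nlinarith
      linarith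
    have h3 : (4 : ℝ) ^ n ≤ Real.exp (2 * n) := by
      have h4 : (4 : ℝ) ≤ Real.exp 2 := by
        have h5 : (2 : ℝ) ≤ Real.exp 1 := by
          have := Real.add_one_le_exp (1 : ℝ)
          linarith
        calc (4 : ℝ) = 2 ^ 2 := by norm_num
          _ ≤ (Real.exp 1) ^ 2 := pow_le_pow_left₀ (by norm_num) h5 2
          _ = Real.exp 2 := by rw [← Real.exp_nat_mul]; norm_num
      calc (4 : ℝ) ^ n ≤ (Real.exp 2) ^ n := pow_le_pow_left₀ (by norm_num) h4 n
        _ = Real.exp (2 * n) := by rw [← Real.exp_nat_mul, mul_comm]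
    calc 4 ^ n * Real.exp (-((t : ℝ) ^ 2 / (2 * e))) ≤
          Real.exp (2 * n) * Real.exp (-(2 * (n : ℝ) + 2 * d)) := by
          refine mul_le_mul h3 (Real.exp_le_exp.2 (by linarith)) (Real.exp_pos _).le
            (Real.exp_pos _).le
      _ = Real.exp (-(2 * (d : ℝ))) := by rw [← Real.exp_add]; congr 1; ring
      _ ≤ 1 / (2 * d) := by
          rw [Real.exp_neg, inv_eq_one_div]
          apply one_div_le_one_div_of_le (by positivity)
          have := Real.add_one_le_exp (2 * (d : ℝ))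
          linarith
  -- the stages
  have hBd : (s : ℝ) * Real.exp (-((1 / (2 * (s : ℝ))) ^ rr a n / 2 * t)) ≤ 1 / (2 * d) := by
    have h1 : (2 * (s : ℝ)) ^ rr a n ≤ (Q : ℝ) ^ (8 * a) := by exact_mod_cast h2sr
    have h2 : (Q : ℝ) ^ (8 * a) * Q ^ 2 * 2 ≤ t := by
      have h3 : Q ^ (8 * a) * Q ^ 2 * 2 ≤ Q ^ (8 * a + 10) := by
        calc Q ^ (8 * a) * Q ^ 2 * 2 ≤ Q ^ (8 * a) * Q ^ 2 * Q ^ 8 := by
              refine Nat.mul_le_mul_left _ ?_
              calc 2 ≤ Q := hQ2
                _ = Q ^ 1 := (pow_one _).symm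
                _ ≤ Q ^ 8 := Nat.pow_le_pow_right (by omega) (by norm_num)
          _ = Q ^ (8 * a + 10) := by ring
      exact_mod_cast h3.trans ht
    have h3 : (Q : ℝ) ^ 2 ≤ (1 / (2 * (s : ℝ))) ^ rr a n / 2 * t := by
      rw [one_div, inv_pow, div_mul_eq_mul_div, le_div_iff₀ (by norm_num), inv_mul_eq_div,
        le_div_iff₀ (by positivity)]
      calc (Q : ℝ) ^ 2 * 2 * (2 * (s : ℝ)) ^ rr a n ≤ (Q : ℝ) ^ 2 * 2 * (Q : ℝ) ^ (8 * a) :=
            mul_le_mul_of_nonneg_left h1 (by positivity)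
        _ = (Q : ℝ) ^ (8 * a) * Q ^ 2 * 2 := by ring
        _ ≤ t := h2
    have h4 : 2 * (s : ℝ) * d ≤ Q := by exact_mod_cast h2sdQ
    have h5 : Real.exp (-((1 / (2 * (s : ℝ))) ^ rr a n / 2 * t)) ≤ 1 / (2 * s * d) := by
      calc Real.exp (-((1 / (2 * (s : ℝ))) ^ rr a n / 2 * t)) ≤ Real.exp (-((Q : ℝ) ^ 2)) :=
            Real.exp_le_exp.2 (by linarith)
        _ ≤ 1 / (2 * s * d) := by
            rw [Real.exp_neg, inv_eq_one_div]
            apply one_div_le_one_div_of_le (by positivity)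
            have := Real.add_one_le_exp ((Q : ℝ) ^ 2)
            nlinarith
    calc (s : ℝ) * Real.exp (-((1 / (2 * (s : ℝ))) ^ rr a n / 2 * t)) ≤ s * (1 / (2 * s * d)) :=
          mul_le_mul_of_nonneg_left h5 (by linarith)
      _ = 1 / (2 * d) := by field_simp
  have h6 : 1 / (2 * (d : ℝ)) + 1 / (2 * d) = 1 / d := by field_simp; norm_num
  linarith

end Pool.Agent.N587.DL
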