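import Pool.Agent.N587.DL.Chain

/-!
# The learner learns
-/

set_option autoImplicit false

namespace Pool.Agent.N587.DL

open Finset

theorem countP_lt {α : Type} (p p' : α → Bool) (F : List α) (h : ∀ T ∈ F, p' T = true → p T = true)
    (T : α) (hT : T ∈ F) (h1 : p T = true) (h2 : p' T = false) : F.countP p' < F.countP p := by
  induction F with
  | nil => simp at hT
  | cons U F ih =>
    rw [List.countP_cons, List.countP_cons]
    have hle : F.countP p' ≤ F.countP p :=
      List.countP_mono_left fun x hx => h x (List.mem_cons_of_mem _ hx)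
    rw [List.mem_cons] at hT
    rcases hT with rfl | hT
    · rw [h1, h2]
      simp
      omega
    · have h3 := ih (fun x hx => h x (List.mem_cons_of_mem _ hx)) hT
      have h4 := h U (by simp)
      by_cases hU : p' U = true
      · rw [hU, h4 hU]
        simpa using h3
      · rw [Bool.not_eq_true] at hU
        rw [hU]
        simp only [Bool.false_eq_true, if_false, add_zero]
        omega

open Classical in
/-- The number of the terms of `F` which are not covered by `h`. -/
noncomputable def cnt (n : ℕ) (F h : Dnf) : ℕ := F.countP fun T => !decide (Cap n h T)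

theorem cnt_lt {n : ℕ} {F h h' : Dnf} (hm : ∀ T, Cap n h T → Cap n h' T) {T : Term} (hT : T ∈ F)
    (h1 : ¬ Cap n h T) (h2 : Cap n h' T) : cnt n F h' < cnt n F h := by
  classical
  unfold cnt
  refine countP_lt _ _ F (fun U _ hU => ?_) T hT ?_ ?_
  · simp only [Bool.not_eq_true', decide_eq_false_iff_not] at hU ⊢
    exact fun hc => hU (hm U hc)
  · simpa using h1
  · simpa using h2

/-- The uncovered mass. -/
noncomputable def um {n : ℕ} (F : Dnf) (w : (Fin n → Bool) → ℝ) (h : Dnf) : ℝ :=
  Ew F w fun z => if uncov h z = true then 1 else 0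

theorem um_stage {n t r : ℕ} (F : Dnf) (w : (Fin n → Bool) → ℝ) (hw : ∀ x, 0 ≤ w x)
    (test st : List Ex) (h : Dnf) : um F w (stage t r test h st) ≤ um F w h := by
  refine (Ew_pos F w hw).mono _ _ fun z => ?_
  have e : uncov (stage t r test h st) z = true → uncov h z = true := by
    unfold uncov stage
    rw [dnfSat_append]
    cases z.2 <;> cases dnfSat h z.1 <;> simp
  by_cases h1 : uncov (stage t r test h st) z = true
  · rw [if_pos h1, if_pos (e h1)]
  · rw [if_neg h1]
    split_ifs <;> norm_num

/-- Some term of `F` has a share of at least `1 / s` of the uncovered mass. -/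
theorem exists_share {n s : ℕ} (F h : Dnf) (w : (Fin n → Bool) → ℝ) (hw : ∀ x, 0 ≤ w x)
    (hs : F.length ≤ s) (hs1 : 1 ≤ s) (hu : 0 < um F w h) :
    ∃ T ∈ F, um F w h / s ≤ Ew F w (fun z => if inR h T z = true then 1 else 0) := by
  by_contra hcon
  push Not at hcon
  have hE := Ew_pos F w hw
  have hsr : (1 : ℝ) ≤ s := by exact_mod_cast hs1
  have h1 : um F w h ≤ (F.map fun T => Ew F w (fun z => if inR h T z = true then 1 else 0)).sum := by
    have key : ∀ G : Dnf, Ew F w (fun z => if (!dnfSat h z.1 && dnfSat G z.1) = true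
        then 1 else 0) ≤ (G.map fun T => Ew F w (fun z =>
          if (!dnfSat h z.1 && termSat z.1 T) = true then 1 else 0)).sum := by
      intro G
      induction G with
      | nil =>
        have : (fun z : Ex => if (!dnfSat h z.1 && dnfSat [] z.1) = true then (1 : ℝ) else 0) =
            fun _ => 0 := by
          funext z
          simp [dnfSat]
        rw [this, hE.zero]
        simp
      | cons T G ih =>
        rw [List.map_cons, List.sum_cons]
        refine le_trans (hE.mono _ (fun z =>
          (if (!dnfSat h z.1 && termSat z.1 T) = true then 1 else 0) +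
          (if (!dnfSat h z.1 && dnfSat G z.1) = true then 1 else 0)) fun z => ?_) ?_
        · have e : dnfSat (T :: G) z.1 = (termSat z.1 T || dnfSat G z.1) := by
            unfold dnfSat
            rw [List.any_cons]
          rw [e]
          cases dnfSat h z.1 <;> cases termSat z.1 T <;> cases dnfSat G z.1 <;> norm_num
        · rw [hE.add]
          linarith
    have h2 : um F w h ≤ Ew F w (fun z => if (!dnfSat h z.1 && dnfSat F z.1) = true
        then 1 else 0) := by
      refine Ew_mono F w hw fun x => ?_
      unfold uncov lab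
      simp only
      cases dnfSat F (List.ofFn x) <;> cases dnfSat h (List.ofFn x) <;> norm_num
    refine h2.trans ((key F).trans (le_of_eq ?_))
    congr 1
    apply List.map_congr_left
    intro T hT
    refine sum_congr rfl fun x _ => ?_
    congr 1
    unfold inR uncov lab
    simp only
    by_cases hTx : termSat (List.ofFn x) T = true
    · have h3 : dnfSat F (List.ofFn x) = true := by
        unfold dnfSat
        rw [List.any_eq_true]
        exact ⟨T, hT, hTx⟩
      rw [h3, hTx]
      cases dnfSat h (List.ofFn x) <;> norm_num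
    · rw [Bool.not_eq_true] at hTx
      rw [hTx, Bool.and_false, Bool.and_false]
  have h2 : (F.map fun T => Ew F w (fun z => if inR h T z = true then 1 else 0)).sum ≤
      F.length * (um F w h / s) := by
    have h3 := List.sum_le_card_nsmul (F.map fun T =>
      Ew F w (fun z => if inR h T z = true then 1 else 0)) (um F w h / s) (by
        intro x hx
        rw [List.mem_map] at hx
        obtain ⟨T, hT, rfl⟩ := hx
        exact (hcon T hT).le)
    rwa [List.length_map, nsmul_eq_mul] at h3
  rcases Nat.eq_zero_or_pos F.length with h0 | h0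
  · rw [h0] at h2
    simp at h2
    linarith
  · -- strict inequality
    obtain ⟨T, hT⟩ := List.exists_mem_of_length_pos h0
    have h3 : (F.map fun T => Ew F w (fun z => if inR h T z = true then 1 else 0)).sum <
        F.length * (um F w h / s) := by
      have h4 : (F.map fun T => Ew F w (fun z => if inR h T z = true then 1 else 0)).sum <
          (F.map fun _ => um F w h / s).sum :=
        List.sum_lt_sum _ _ (fun T hT => (hcon T hT).le) ⟨T, hT, hcon T hT⟩
      simpa using h4
    have h5 : (F.length : ℝ) * (um F w h / s) ≤ um F w h := by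
      have h6 : (F.length : ℝ) ≤ s := by exact_mod_cast hs
      calc (F.length : ℝ) * (um F w h / s) ≤ s * (um F w h / s) :=
            mul_le_mul_of_nonneg_right h6 (by positivity)
        _ = um F w h := by field_simp
    linarith

/-- The error of the hypothesis `h`. -/
noncomputable def err {n : ℕ} (F : Dnf) (w : (Fin n → Bool) → ℝ) (h : Dnf) : ℝ :=
  ∑ x, if dnfSat h (List.ofFn x) ≠ dnfSat F (List.ofFn x) then w x else 0

theorem err_le {n : ℕ} (F : Dnf) (w : (Fin n → Bool) → ℝ) (hw : ∀ x, 0 ≤ w x) (h : Dnf) :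
    err F w h ≤ um F w h +
      Ew F w (fun z => if (!z.2 && dnfSat h z.1) = true then 1 else 0) := by
  unfold err um Ew
  rw [← sum_add_distrib]
  refine sum_le_sum fun x _ => ?_
  have h0 := hw x
  unfold uncov lab
  simp only
  cases dnfSat F (List.ofFn x) <;> cases dnfSat h (List.ofFn x) <;> simp [h0]

/-- One stage. -/
theorem one_stage {n t r a s K e : ℕ} (F h : Dnf) (w : (Fin n → Bool) → ℝ)
    (hw : ∀ x, 0 ≤ w x) (hw1 : ∑ x, w x = 1) (hr : 1 ≤ r) (hs : F.length ≤ s) (hs1 : 1 ≤ s)
    (ha : 2 ≤ a) (he : 1 ≤ e) (p : Fin n → ℝ)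
    (hp : ∀ i, 1 / (a : ℝ) ≤ p i ∧ p i ≤ 1 - 1 / a) (hK : 1 ≤ K)
    (hwK : ∀ x, w x ≤ K * ∏ i, pr (p i) (x i))
    (hu : 1 / (2 * (e : ℝ)) ≤ um F w h) (het : 2 * e ≤ t)
    (hKt : (2 * e * s * K) ^ (5 * a) ≤ t)
    (hrn : 2 * (n : ℝ) * (1 - 1 / (2 * (a : ℝ))) ^ r ≤ 1 / 2)
    (test : List Ex) (htest : ∀ z ∈ test, ∃ x : Fin n → Bool, z = lab F x) :
    exL (Ew F w) (t * (r * t)) (fun st => if cnt n F (stage t r test h st) < cnt n F h
      then 0 else 1) ≤ Real.exp (-((1 / (2 * (s : ℝ))) ^ r / 2 * t)) := by
  classical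
  have hE := Ew_pos F w hw
  have her : (1 : ℝ) ≤ e := by exact_mod_cast he
  have hsr : (1 : ℝ) ≤ s := by exact_mod_cast hs1
  have hKr : (1 : ℝ) ≤ K := by exact_mod_cast hK
  have ha2 : (2 : ℝ) ≤ a := by exact_mod_cast ha
  have hetr : 2 * (e : ℝ) ≤ t := by exact_mod_cast het
  have hu0 : 0 < um F w h := lt_of_lt_of_le (by positivity) hu
  obtain ⟨T, hT, hTs⟩ := exists_share F h w hw hs hs1 hu0
  set ρ : ℝ := Ew F w (fun z => if inR h T z = true then 1 else 0) with hρ
  have hρ0 : 0 < ρ := lt_of_lt_of_le (by positivity) hTs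
  have hρK : (K : ℝ) / ρ ≤ 2 * e * s * K := by
    rw [div_le_iff₀ hρ0]
    have h1 : 1 / (2 * (e : ℝ) * s) ≤ ρ := by
      calc 1 / (2 * (e : ℝ) * s) = 1 / (2 * (e : ℝ)) / s := by rw [div_div]
        _ ≤ um F w h / s := by gcongr
        _ ≤ ρ := hTs
    rw [div_le_iff₀ (by positivity)] at h1
    nlinarith
  -- the coordinates with a bias
  set ρl : Fin n → Bool → ℝ := fun i b =>
    Ew F w (fun z => if (inR h T z && litSat z.1 ((i : ℕ), b)) = true then 1 else 0) with hρl
  set I : Finset (Fin n) := univ.filter fun i => ∃ b, (1 - 1 / (2 * (a : ℝ))) * ρ < ρl i b with hI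
  obtain ⟨b, hb⟩ : ∃ b : Fin n → Bool, ∀ i ∈ I, (1 - 1 / (2 * (a : ℝ))) * ρ < ρl i (b i) := by
    refine ⟨fun i => if hi : ∃ b, (1 - 1 / (2 * (a : ℝ))) * ρ < ρl i b then hi.choose else true,
      fun i hi => ?_⟩
    have h1 := (mem_filter.1 hi).2
    simp only [dif_pos h1]
    exact h1.choose_spec
  have hρsum : ρ = ∑ x : Fin n → Bool, if inR h T (lab F x) = true then w x else 0 := by
    rw [hρ]
    unfold Ew
    refine sum_congr rfl fun x _ => ?_
    change w x * (if inR h T (lab F x) = true then (1 : ℝ) else 0) = _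
    by_cases h1 : inR h T (lab F x) = true
    · rw [if_pos h1, if_pos h1, mul_one]
    · rw [if_neg h1, if_neg h1, mul_zero]
  have hbias := bias a ha p hp K w hw hwK (fun x => inR h T (lab F x) = true) ρ hρsum hρ0 I b (by
    intro i hi
    have h1 := hb i hi
    have h2 : ∑ x : Fin n → Bool, (if inR h T (lab F x) = true ∧ x i ≠ b i then w x else 0) +
        ρl i (b i) = ρ := by
      rw [hρl, hρsum]
      unfold Ew
      rw [← sum_add_distrib]
      refine sum_congr rfl fun x _ => ?_
      have e1 : litSat (lab F x).1 ((i : ℕ), b i) = decide (x i = b i) := litSat_ofFn x i (b i)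
      change (if inR h T (lab F x) = true ∧ x i ≠ b i then w x else 0) + w x *
        (if (inR h T (lab F x) && litSat (lab F x).1 ((i : ℕ), b i)) = true then (1 : ℝ) else 0) = _
      rw [e1]
      by_cases h3 : inR h T (lab F x) = true
      · by_cases h4 : x i = b i
        · simp [h3, h4]
        · simp [h3, h4]
      · simp [h3]
    have h3 : (1 - 1 / (2 * (a : ℝ))) * ρ = ρ - ρ / (2 * a) := by
      field_simp
    linarith)
  have hIt : 2 ^ I.card ≤ t := by
    have h1 : ((2 ^ I.card : ℕ) : ℝ) ≤ t := by
      push_cast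
      refine hbias.trans ?_
      calc ((K : ℝ) / ρ) ^ (5 * a) ≤ (2 * e * s * K) ^ (5 * a) :=
            pow_le_pow_left₀ (by positivity) hρK _
        _ ≤ t := by exact_mod_cast hKt
    exact_mod_cast h1
  have hut : 1 ≤ um F w h * t := by
    calc (1 : ℝ) = 1 / (2 * (e : ℝ)) * (2 * e) := by field_simp
      _ ≤ um F w h * t := mul_le_mul hu hetr (by positivity) hu0.le
  have hq := tuple_prob (t := t) (r := r) F h T w hw hw1 hr hs1 ha (um F w h) ρ rfl hu0 hut rfl
    hTs I hIt (fun i b hi => by
      have h1 : ¬ ∃ b, (1 - 1 / (2 * (a : ℝ))) * ρ < ρl i b := by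
        intro hcon
        exact hi (mem_filter.2 ⟨mem_univ i, hcon⟩)
      push Not at h1
      exact h1 b) hrn
  refine le_trans ?_ (stage_prob F h T w hw hw1 _ hq)
  refine (hE.exL _).mono _ _ fun st => ?_
  have hnn : ∀ v ∈ (pieces (r * t) t st).map (fun tup => 1 - tg n t r h T tup), (0 : ℝ) ≤ v := by
    intro v hv
    rw [List.mem_map] at hv
    obtain ⟨tup, _, rfl⟩ := hv
    linarith [tg_le_one n t r h T tup]
  by_cases h1 : ((pieces (r * t) t st).map fun tup => 1 - tg n t r h T tup).prod = 1
  · rw [h1]
    split_ifs <;> norm_num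
  · have h2 := cap_of_success (test := test) (st := st) hT htest h1
    have h3 : cnt n F (stage t r test h st) < cnt n F h := by
      refine cnt_lt (fun U hU => hU.stage) hT ?_ h2
      intro hcap
      have h4 : ρ ≤ 0 := by
        rw [hρsum]
        refine le_of_eq (sum_eq_zero fun x _ => ?_)
        rw [if_neg]
        unfold inR uncov lab
        simp only
        intro hcon
        rw [Bool.and_eq_true, Bool.and_eq_true] at hcon
        have h5 := hcap x hcon.2
        rw [h5] at hcon
        simp at hcon
      linarith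
    rw [if_pos h3]
    exact List.prod_nonneg hnn

end Pool.Agent.N587.DL
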