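import Pool.Agent.N587.DL.Tuple

/-!
# The probability that a stage adds a given term
-/

set_option autoImplicit false

namespace Pool.Agent.N587.DL

open Finset

/-- The success of a tuple. -/
noncomputable def tg (n t r : ℕ) (h : Dnf) (T : Term) (tup : List Ex) : ℝ :=
  if ((pieces t r tup).flatMap (fst1 h)).length = r then
    good n t T ((pieces t r tup).flatMap (fst1 h)) else 0

theorem tg_nonneg (n t r : ℕ) (h : Dnf) (T : Term) (tup : List Ex) : 0 ≤ tg n t r h T tup := by
  unfold tg
  split_ifs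
  · exact good_nonneg _ _ _ _
  · exact le_rfl

theorem tg_le_one (n t r : ℕ) (h : Dnf) (T : Term) (tup : List Ex) : tg n t r h T tup ≤ 1 := by
  unfold tg good
  split_ifs <;> norm_num

theorem tg_pos {n t r : ℕ} {h : Dnf} {T : Term} {tup : List Ex} (hg : tg n t r h T tup ≠ 0) :
    ∃ c ∈ cand t r h tup, ∀ x : Fin n → Bool,
      termSat (List.ofFn x) c = termSat (List.ofFn x) T := by
  unfold tg at hg
  split_ifs at hg with h1
  · unfold good at hg
    split_ifs at hg with h2
    · unfold cand
      rw [if_pos h1]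
      exact h2
    · exact absurd rfl hg
  · exact absurd rfl hg

/-- The probability that a tuple is successful. -/
theorem tuple_prob {n t r a s : ℕ} (F h : Dnf) (T : Term) (w : (Fin n → Bool) → ℝ)
    (hw : ∀ x, 0 ≤ w x) (hw1 : ∑ x, w x = 1) (hr : 1 ≤ r) (hs : 1 ≤ s) (ha : 2 ≤ a) (u ρ : ℝ)
    (hu : u = Ew F w fun z => if uncov h z = true then 1 else 0) (hu0 : 0 < u)
    (hut : 1 ≤ u * t)
    (hρ : ρ = Ew F w fun z => if inR h T z = true then 1 else 0) (hρs : u / s ≤ ρ)
    (I : Finset (Fin n)) (hI : 2 ^ I.card ≤ t)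
    (hIb : ∀ (i : Fin n) (b : Bool), i ∉ I →
      Ew F w (fun z => if (inR h T z && litSat z.1 ((i : ℕ), b)) = true then 1 else 0) ≤
        (1 - 1 / (2 * (a : ℝ))) * ρ)
    (hrn : 2 * (n : ℝ) * (1 - 1 / (2 * (a : ℝ))) ^ r ≤ 1 / 2) :
    (1 / (2 * (s : ℝ))) ^ r / 2 ≤ exL (Ew F w) (r * t) (tg n t r h T) := by
  have hE := Ew_pos F w hw
  have hE1 := Ew_one F w hw1
  have hsr : (1 : ℝ) ≤ s := by exact_mod_cast hs
  have ha2 : (2 : ℝ) ≤ a := by exact_mod_cast ha
  have hu1 : u ≤ 1 := by
    calc u = Ew F w (fun z => if uncov h z = true then 1 else 0) := hu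
      _ ≤ Ew F w (fun _ => 1) := hE.mono _ _ fun z => by split_ifs <;> norm_num
      _ = 1 := hE1
  have hρ0 : 0 < ρ := lt_of_lt_of_le (by positivity) hρs
  have hκ : 1 / (2 * u) ≤ kap u t := kap_ge u t hu0 hu1 hut
  have hκ0 : 0 < kap u t := lt_of_lt_of_le (by positivity) hκ
  set κ := kap u t with hκd
  have hS : ∀ G H : Ex → ℝ, (∀ z, (∃ x : Fin n → Bool, z = lab F x) → G z ≤ H z) →
      firstE (Ew F w) (uncov h) κ G ≤ firstE (Ew F w) (uncov h) κ H := by
    intro G H hGH
    unfold firstE
    refine mul_le_mul_of_nonneg_left (Ew_mono F w hw fun x => ?_) hκ0.le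
    split_ifs
    · exact hGH _ ⟨x, rfl⟩
    · exact le_rfl
  have hP := hE.firstE (uncov h) hκ0.le
  -- reduction to the first good elements
  have h1 := exL_tuple hE hE1 (uncov h) u hu hu1 t r
    (fun ys => if ys.length = r then good n t T ys else 0) (fun ys => by
      split_ifs
      · exact good_nonneg _ _ _ _
      · exact le_rfl)
  have h2 : exL (Ew F w) (r * t) (tg n t r h T) =
      exL (exL (Ew F w) t) r (fun bls => if (bls.flatMap fun bl =>
        (bl.filter (uncov h)).take 1).length = r then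
          good n t T (bls.flatMap fun bl => (bl.filter (uncov h)).take 1) else 0) := by
    rw [← exL_pieces]
    rfl
  rw [h2]
  refine le_trans ?_ h1
  rw [← hκd]
  -- the product functions
  have e1 : firstE (Ew F w) (uncov h) κ (fun z => if inR h T z = true then 1 else 0) = κ * ρ := by
    unfold firstE
    rw [hρ]
    congr 2
    funext z
    unfold inR
    by_cases hz : uncov h z = true
    · simp [hz]
    · simp [hz]
  have e2 : ∀ l : Fin n × Bool, firstE (Ew F w) (uncov h) κ
      (fun z => if (inR h T z && litSat z.1 ((l.1 : ℕ), l.2)) = true then 1 else 0) =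
      κ * Ew F w (fun z => if (inR h T z && litSat z.1 ((l.1 : ℕ), l.2)) = true then 1 else 0) := by
    intro l
    unfold firstE
    congr 2
    funext z
    unfold inR
    by_cases hz : uncov h z = true
    · simp [hz]
    · simp [hz]
  have hκρ : 0 ≤ κ * ρ := by positivity
  have h3 : (κ * ρ) ^ r - ∑ l ∈ (univ.filter fun l : Fin n × Bool => l.1 ∉ I),
      (κ * Ew F w (fun z => if (inR h T z && litSat z.1 ((l.1 : ℕ), l.2)) = true
        then 1 else 0)) ^ r ≤
      exL (firstE (Ew F w) (uncov h) κ) r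
        (fun ys => if ys.length = r then good n t T ys else 0) := by
    calc _ = exL (firstE (Ew F w) (uncov h) κ) r (fun ys =>
          (ys.map fun z => if inR h T z = true then (1 : ℝ) else 0).prod -
          ∑ l ∈ (univ.filter fun l : Fin n × Bool => l.1 ∉ I),
          (ys.map fun z => if (inR h T z && litSat z.1 ((l.1 : ℕ), l.2)) = true
            then (1 : ℝ) else 0).prod) := by
          rw [(hP.exL r).sub, (hP.exL r).sum, exL_prod hP, e1]
          congr 1
          refine sum_congr rfl fun l _ => ?_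
          rw [exL_prod hP, e2]
      _ ≤ _ := by
          refine exL_monoS hS r fun ys hlen hys => ?_
          rw [if_pos hlen]
          refine good_ge F h T I hI ys ?_ hys
          intro hcon
          rw [hcon] at hlen
          simp at hlen
          omega
  refine le_trans ?_ h3
  have h4 : ∑ l ∈ (univ.filter fun l : Fin n × Bool => l.1 ∉ I),
      (κ * Ew F w (fun z => if (inR h T z && litSat z.1 ((l.1 : ℕ), l.2)) = true
        then 1 else 0)) ^ r ≤ (κ * ρ) ^ r * (1 / 2) := by
    have hc0 : 0 ≤ 1 - 1 / (2 * (a : ℝ)) := by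
      have : 1 / (2 * (a : ℝ)) ≤ 1 := by
        rw [div_le_one (by positivity)]
        linarith
      linarith
    calc _ ≤ ∑ l ∈ (univ.filter fun l : Fin n × Bool => l.1 ∉ I),
          (κ * ρ) ^ r * (1 - 1 / (2 * (a : ℝ))) ^ r := by
          refine sum_le_sum fun l hl => ?_
          rw [← mul_pow]
          have h5 := hIb l.1 l.2 (mem_filter.1 hl).2
          have h6 : 0 ≤ Ew F w (fun z => if (inR h T z && litSat z.1 ((l.1 : ℕ), l.2)) = true
              then 1 else 0) := hE.nonneg fun z => by split_ifs <;> norm_num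
          refine pow_le_pow_left₀ (by positivity) ?_ r
          calc _ ≤ κ * ((1 - 1 / (2 * (a : ℝ))) * ρ) := mul_le_mul_of_nonneg_left h5 hκ0.le
            _ = κ * ρ * (1 - 1 / (2 * (a : ℝ))) := by ring
      _ ≤ ∑ _l : Fin n × Bool, (κ * ρ) ^ r * (1 - 1 / (2 * (a : ℝ))) ^ r :=
          sum_le_sum_of_subset_of_nonneg (filter_subset _ _) fun i _ _ => by positivity
      _ = (κ * ρ) ^ r * (2 * (n : ℝ) * (1 - 1 / (2 * (a : ℝ))) ^ r) := by
          rw [sum_const, card_univ, Fintype.card_prod, Fintype.card_fin, Fintype.card_bool,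
            nsmul_eq_mul]
          push_cast
          ring
      _ ≤ _ := mul_le_mul_of_nonneg_left hrn (pow_nonneg hκρ r)
  have h5 : 1 / (2 * (s : ℝ)) ≤ κ * ρ := by
    calc 1 / (2 * (s : ℝ)) = 1 / (2 * u) * (u / s) := by field_simp
      _ ≤ κ * ρ := mul_le_mul hκ hρs (by positivity) hκ0.le
  have h6 : (1 / (2 * (s : ℝ))) ^ r ≤ (κ * ρ) ^ r := pow_le_pow_left₀ (by positivity) h5 r
  linarith

/-- The probability that no tuple of a stage is successful. -/
theorem stage_prob {n t r : ℕ} (F h : Dnf) (T : Term) (w : (Fin n → Bool) → ℝ)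
    (hw : ∀ x, 0 ≤ w x) (hw1 : ∑ x, w x = 1) (q : ℝ)
    (hq : q ≤ exL (Ew F w) (r * t) (tg n t r h T)) :
    exL (Ew F w) (t * (r * t)) (fun st => ((pieces (r * t) t st).map fun tup =>
      1 - tg n t r h T tup).prod) ≤ Real.exp (-(q * t)) := by
  have hE := Ew_pos F w hw
  have hE1 := Ew_one F w hw1
  have h1 : exL (Ew F w) (t * (r * t)) (fun st => ((pieces (r * t) t st).map fun tup =>
      1 - tg n t r h T tup).prod) = (1 - exL (Ew F w) (r * t) (tg n t r h T)) ^ t := by
    rw [exL_pieces (r * t) t (fun L => (L.map fun tup => 1 - tg n t r h T tup).prod),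
      exL_prod (hE.exL _), (hE.exL _).sub, exL_one hE hE1]
  rw [h1]
  have h2 : exL (Ew F w) (r * t) (tg n t r h T) ≤ 1 := by
    rw [← exL_one hE hE1 (r * t)]
    exact (hE.exL _).mono _ _ fun l => tg_le_one _ _ _ _ _ _
  calc (1 - exL (Ew F w) (r * t) (tg n t r h T)) ^ t ≤ (Real.exp (-q)) ^ t := by
        refine pow_le_pow_left₀ (by linarith) ?_ t
        have := Real.add_one_le_exp (-q)
        linarith
    _ = Real.exp (-(q * t)) := by
        rw [← Real.exp_nat_mul]
        congr 1
        ring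

/-- The term `T` is covered by `h` on the cube. -/
def Cap (n : ℕ) (h : Dnf) (T : Term) : Prop :=
  ∀ x : Fin n → Bool, termSat (List.ofFn x) T = true → dnfSat h (List.ofFn x) = true

theorem dnfSat_append (h h' : Dnf) (x : List Bool) :
    dnfSat (h ++ h') x = (dnfSat h x || dnfSat h' x) := by
  unfold dnfSat
  rw [List.any_append]

theorem Cap.stage {n t r : ℕ} {test st : List Ex} {h : Dnf} {T : Term} (hc : Cap n h T) :
    Cap n (stage t r test h st) T := by
  intro x hx
  unfold DL.stage
  rw [dnfSat_append, hc x hx, Bool.true_or]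

/-- If no tuple fails ... : if the product is not one... A stage in which some tuple is successful
covers `T`. -/
theorem cap_of_success {n t r : ℕ} {F : Dnf} {test st : List Ex} {h : Dnf} {T : Term} (hT : T ∈ F)
    (htest : ∀ z ∈ test, ∃ x : Fin n → Bool, z = lab F x)
    (hne : ((pieces (r * t) t st).map fun tup => 1 - tg n t r h T tup).prod ≠ 1) :
    Cap n (stage t r test h st) T := by
  have h1 : ∃ tup ∈ pieces (r * t) t st, tg n t r h T tup ≠ 0 := by
    by_contra hcon
    push Not at hcon
    apply hne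
    apply List.prod_eq_one
    intro v hv
    rw [List.mem_map] at hv
    obtain ⟨tup, htup, rfl⟩ := hv
    rw [hcon tup htup, sub_zero]
  obtain ⟨tup, htup, hg⟩ := h1
  obtain ⟨c, hc, hcx⟩ := tg_pos hg
  intro x hx
  unfold DL.stage
  rw [dnfSat_append, Bool.or_eq_true]
  right
  unfold dnfSat
  rw [List.any_eq_true]
  refine ⟨c, ?_, by rw [hcx x]; exact hx⟩
  rw [List.mem_filter]
  refine ⟨List.mem_flatMap.2 ⟨tup, htup, hc⟩, ?_⟩
  unfold consis
  rw [List.all_eq_true]
  intro z hz
  obtain ⟨y, rfl⟩ := htest z hz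
  change (dnfSat F (List.ofFn y) || !termSat (List.ofFn y) c) = true
  rw [hcx y]
  cases hTy : termSat (List.ofFn y) T
  · simp
  · have : dnfSat F (List.ofFn y) = true := by
      unfold dnfSat
      rw [List.any_eq_true]
      exact ⟨T, hT, hTy⟩
    simp [this]

end Pool.Agent.N587.DL
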