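import Pool.Agent.N587.DL.Algo
import Pool.Agent.N587.DL.Block
import Pool.Agent.N587.DL.Bias

/-!
# The probability that a tuple of blocks proposes a given term
-/

set_option autoImplicit false

namespace Pool.Agent.N587.DL

open Finset

/-- The example at the point `x` for the target `F`. -/
def lab (F : Dnf) {n : ℕ} (x : Fin n → Bool) : Ex := (List.ofFn x, dnfSat F (List.ofFn x))

/-- The expectation with respect to the weights `w`. -/
noncomputable def Ew {n : ℕ} (F : Dnf) (w : (Fin n → Bool) → ℝ) (G : Ex → ℝ) : ℝ :=
  ∑ x, w x * G (lab F x)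

theorem Ew_pos {n : ℕ} (F : Dnf) (w : (Fin n → Bool) → ℝ) (hw : ∀ x, 0 ≤ w x) : Pos (Ew F w) := by
  refine ⟨fun G H h => ?_, fun G H => ?_, fun c G => ?_⟩
  · exact sum_le_sum fun x _ => mul_le_mul_of_nonneg_left (h _) (hw x)
  · unfold Ew
    rw [← sum_add_distrib]
    exact sum_congr rfl fun x _ => by ring
  · unfold Ew
    rw [mul_sum]
    exact sum_congr rfl fun x _ => by ring

theorem Ew_one {n : ℕ} (F : Dnf) (w : (Fin n → Bool) → ℝ) (h1 : ∑ x, w x = 1) :
    Ew F w (fun _ => 1) = 1 := by
  unfold Ew
  simpa using h1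

/-- Comparison on the support only. -/
theorem Ew_mono {n : ℕ} (F : Dnf) (w : (Fin n → Bool) → ℝ) (hw : ∀ x, 0 ≤ w x) {G H : Ex → ℝ}
    (h : ∀ x : Fin n → Bool, G (lab F x) ≤ H (lab F x)) : Ew F w G ≤ Ew F w H :=
  sum_le_sum fun x _ => mul_le_mul_of_nonneg_left (h x) (hw x)

/-- A functional on lists which only sees the lists with elements in `S`. -/
theorem exL_monoS {α : Type} {E : (α → ℝ) → ℝ} {S : α → Prop}
    (hS : ∀ F G : α → ℝ, (∀ a, S a → F a ≤ G a) → E F ≤ E G) : ∀ (k : ℕ) {F G : List α → ℝ},
    (∀ l : List α, l.length = k → (∀ a ∈ l, S a) → F l ≤ G l) → exL E k F ≤ exL E k G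
  | 0, F, G, h => h [] rfl (by simp)
  | k + 1, F, G, h => by
    rw [exL_succ, exL_succ]
    refine hS _ _ fun a ha => exL_monoS hS k fun l hl hl' => h (a :: l) (by simp [hl]) ?_
    intro b hb
    rw [List.mem_cons] at hb
    rcases hb with rfl | hb
    · exact ha
    · exact hl' b hb

/-- The example is an uncovered positive one in the term `T`. -/
def inR (h : Dnf) (T : Term) (z : Ex) : Bool := uncov h z && termSat z.1 T

theorem prod_ind {α : Type} (p : α → Bool) (l : List α) :
    (l.map fun a => if p a = true then (1 : ℝ) else 0).prod = if l.all p = true then 1 else 0 := by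
  induction l with
  | nil => simp
  | cons a l ih =>
    rw [List.map_cons, List.prod_cons, ih, List.all_cons]
    cases p a <;> simp

open Classical in
/-- The tuple proposes a term equivalent to `T`. -/
noncomputable def good (n t : ℕ) (T : Term) (ys : List Ex) : ℝ :=
  if ∃ c ∈ subs t (common (ys.map Prod.fst)), ∀ x : Fin n → Bool,
    termSat (List.ofFn x) c = termSat (List.ofFn x) T then 1 else 0

theorem good_nonneg (n t : ℕ) (T : Term) (ys : List Ex) : 0 ≤ good n t T ys := by
  unfold good
  split_ifs <;> norm_num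

/-- The pointwise lower bound for `good`. -/
theorem good_ge {n t : ℕ} (F h : Dnf) (T : Term) (I : Finset (Fin n)) (hI : 2 ^ I.card ≤ t)
    (ys : List Ex) (hne : ys ≠ []) (hys : ∀ z ∈ ys, ∃ x : Fin n → Bool, z = lab F x) :
    (ys.map fun z => if inR h T z = true then (1 : ℝ) else 0).prod -
      ∑ l ∈ (univ.filter fun l : Fin n × Bool => l.1 ∉ I),
        (ys.map fun z => if (inR h T z && litSat z.1 ((l.1 : ℕ), l.2)) = true
          then (1 : ℝ) else 0).prod ≤ good n t T ys := by
  simp only [prod_ind]
  by_cases hall : ys.all (inR h T) = true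
  · rw [if_pos hall]
    by_cases hbad : ∃ l : Fin n × Bool, l.1 ∉ I ∧
        ys.all (fun z => litSat z.1 ((l.1 : ℕ), l.2)) = true
    · obtain ⟨l, hl, hall'⟩ := hbad
      have h1 : (1 : ℝ) ≤ ∑ l ∈ (univ.filter fun l : Fin n × Bool => l.1 ∉ I),
          (if ys.all (fun z => inR h T z && litSat z.1 ((l.1 : ℕ), l.2)) = true
            then (1 : ℝ) else 0) := by
        have h2 := single_le_sum (s := univ.filter fun l : Fin n × Bool => l.1 ∉ I)
          (f := fun l => (if ys.all (fun z => inR h T z && litSat z.1 ((l.1 : ℕ), l.2)) = true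
            then (1 : ℝ) else 0)) (fun i _ => by split_ifs <;> norm_num)
          (mem_filter.2 ⟨mem_univ l, hl⟩)
        refine le_trans ?_ h2
        rw [if_pos]
        rw [List.all_eq_true] at hall hall' ⊢
        intro z hz
        simp [hall z hz, hall' z hz]
      linarith [good_nonneg n t T ys]
    · push Not at hbad
      have h1 : ∑ l ∈ (univ.filter fun l : Fin n × Bool => l.1 ∉ I),
          (if ys.all (fun z => inR h T z && litSat z.1 ((l.1 : ℕ), l.2)) = true
            then (1 : ℝ) else 0) = 0 := by
        refine sum_eq_zero fun l hl => ?_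
        rw [if_neg]
        intro hcon
        apply hbad l (mem_filter.1 hl).2
        rw [List.all_eq_true] at hcon ⊢
        intro z hz
        have := hcon z hz
        rw [Bool.and_eq_true] at this
        exact this.2
      rw [h1, sub_zero]
      have hne' : ys.map Prod.fst ≠ [] := by simpa using hne
      have hlen : ∀ y ∈ ys.map Prod.fst, ∃ x : Fin n → Bool, y = List.ofFn x := by
        intro y hy
        rw [List.mem_map] at hy
        obtain ⟨z, hz, rfl⟩ := hy
        obtain ⟨x, rfl⟩ := hys z hz
        exact ⟨x, rfl⟩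
      have h2 := common_card hne' hlen I (by
        intro i b hb
        by_contra hcon
        apply hbad (i, b) hcon
        rw [List.all_eq_true]
        intro z hz
        exact hb z.1 (List.mem_map_of_mem hz))
      have h3 : 2 ^ (common (ys.map Prod.fst)).length ≤ t :=
        (Nat.pow_le_pow_right (by norm_num) h2).trans hI
      obtain ⟨c, hc, hcx⟩ := exists_cand hne' hlen T (by
        intro y hy
        rw [List.mem_map] at hy
        obtain ⟨z, hz, rfl⟩ := hy
        rw [List.all_eq_true] at hall
        have := hall z hz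
        unfold inR at this
        rw [Bool.and_eq_true] at this
        exact this.2) h3
      unfold good
      rw [if_pos ⟨c, hc, fun x => hcx _⟩]
  · rw [if_neg hall]
    have h1 : (0 : ℝ) ≤ ∑ l ∈ (univ.filter fun l : Fin n × Bool => l.1 ∉ I),
          (if ys.all (fun z => inR h T z && litSat z.1 ((l.1 : ℕ), l.2)) = true
            then (1 : ℝ) else 0) := sum_nonneg fun i _ => by split_ifs <;> norm_num
    linarith [good_nonneg n t T ys]

end Pool.Agent.N587.DL
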